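import Pool.Agent.Helper58.RK2.Double

/-!
# The iterated differences of a related family vanish
-/

set_option autoImplicit false
set_option linter.unusedVariables false

open Set Metric Filter Topology

namespace Pool.Agent.Helper83.RK2

/-- Iterated differences only depend on the values on a set which is closed under the steps. -/
theorem Dl_congr {A ι : Type} [Add A] (v : ι → A) (l : List ι) {S : Set A}
    (hS : ∀ j ∈ l, ∀ b ∈ S, b + v j ∈ S) {ψ ψ' : A → ℤ} (h : ∀ b ∈ S, ψ b = ψ' b) {a : A}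
    (ha : a ∈ S) : Dl v l ψ a = Dl v l ψ' a := by
  induction l generalizing ψ ψ' with
  | nil => exact h a ha
  | cons j l ih =>
    apply ih (fun i hi => hS i (List.mem_cons_of_mem _ hi))
    intro b hb
    rw [h b hb, h _ (hS j List.mem_cons_self b hb)]

variable {Z H : Type} [TopologicalSpace Z] [AddCommGroup H] {g : H → Z → Z} {p : ℕ}

theorem Cl_pred [NeZero p] {W T : Set Z} {c : Z → ZMod p}
    (hT : ∀ e : ZMod p, Cl g {x | x ∈ W ∧ x ∈ T ∧ c x = e}) (q : ZMod p → Prop) :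
    Cl g {x | x ∈ W ∧ x ∈ T ∧ q (c x)} := by
  constructor
  · have h1 : {x | x ∈ W ∧ x ∈ T ∧ q (c x)} = ⋃ e ∈ {e | q e}, {x | x ∈ W ∧ x ∈ T ∧ c x = e} := by
      ext x
      constructor
      · rintro ⟨h1, h2, h3⟩
        exact mem_biUnion (x := c x) h3 ⟨h1, h2, rfl⟩
      · intro h
        obtain ⟨e, he, h1, h2, h3⟩ := mem_iUnion₂.1 h
        have he' : q e := he
        exact ⟨h1, h2, by rw [h3]; exact he'⟩
    rw [h1]
    exact (toFinite _).isClosed_biUnion fun e _ => (hT e).1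
  · rintro h x ⟨h1, h2, h3⟩
    obtain ⟨h4, h5, h6⟩ := (hT (c x)).2 h x ⟨h1, h2, rfl⟩
    exact ⟨h4, h5, by rw [h6]; exact h3⟩

theorem Cl_list [NeZero p] {ι : Type} {W : Set Z} (T : ι → Set Z) (c : ι → Z → ZMod p)
    (l : List ι) (hT : ∀ i ∈ l, ∀ e : ZMod p, Cl g {x | x ∈ W ∧ x ∈ T i ∧ c i x = e}) :
    Cl g {x | x ∈ W ∧ ∃ i ∈ l, x ∈ T i} := by
  have hT' : ∀ i ∈ l, Cl g {x | x ∈ W ∧ x ∈ T i ∧ True} := fun i hi =>
    Cl_pred (hT i hi) fun _ => True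
  constructor
  · have h1 : {x | x ∈ W ∧ ∃ i ∈ l, x ∈ T i} =
        ⋃ i ∈ {i | i ∈ l}, {x | x ∈ W ∧ x ∈ T i ∧ True} := by
      ext x
      constructor
      · rintro ⟨h1, i, hi, h2⟩
        exact mem_biUnion (x := i) hi ⟨h1, h2, trivial⟩
      · intro h
        obtain ⟨i, hi, h1, h2, -⟩ := mem_iUnion₂.1 h
        exact ⟨h1, i, hi, h2⟩
    rw [h1]
    exact l.finite_toSet.isClosed_biUnion fun i hi => (hT' i hi).1
  · rintro h x ⟨h1, i, hi, h2⟩
    obtain ⟨h4, h5, -⟩ := (hT' i hi).2 h x ⟨h1, h2, trivial⟩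
    exact ⟨h4, i, hi, h5⟩

/-- **The iterated differences vanish.** -/
theorem Thy.alt [NeZero p] {A ι : Type} [AddCommGroup A] (v : ι → A) (χ : ι → A → ZMod p)
    (T : ι → Set Z) (c : ι → Z → ZMod p) (hs : ι → H) (l : List ι) (hl : l ≠ []) (hnd : l.Nodup)
    (𝒯 : Thy g p) (A₀ : Set A) (fam : A → Z → 𝒯.E)
    (hT : ∀ i ∈ l, ∀ e : ZMod p, Cl g {x | x ∈ 𝒯.W ∧ x ∈ T i ∧ c i x = e})
    (hcov : ∀ x ∈ 𝒯.W, ∃ i ∈ l, x ∈ T i)
    (hfam : ∀ a ∈ A₀, 𝒯.Adm 𝒯.W (fam a))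
    (hA₀ : ∀ i ∈ l, ∀ a ∈ A₀, a + v i ∈ A₀)
    (hχ : ∀ i ∈ l, ∀ j ∈ l, i ≠ j → ∀ a, χ i (a + v j) = χ i a)
    (h1 : ∀ i ∈ l, ∀ a ∈ A₀, ∀ x ∈ 𝒯.W, x ∈ T i → c i x + χ i a ≠ -1 →
      fam (a + v i) x = fam a x)
    (h2 : ∀ i ∈ l, ∀ a ∈ A₀, ∀ x ∈ 𝒯.W, x ∈ T i → c i x + χ i a = -1 →
      fam (a + v i) (g (hs i) x) = fam a x)
    {a : A} (ha : a ∈ A₀) : Dl v l (fun b => 𝒯.δ (fam b)) a = 0 := by
  induction l generalizing 𝒯 A₀ with
  | nil => exact absurd rfl hl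
  | cons i l ih =>
    have hi : i ∈ i :: l := List.mem_cons_self
    have hTp : Cl g {x | x ∈ 𝒯.W ∧ x ∈ T i ∧ c i x + χ i a ≠ -1} :=
      Cl_pred (hT i hi) fun e => e + χ i a ≠ -1
    have hTm : Cl g {x | x ∈ 𝒯.W ∧ x ∈ T i ∧ c i x + χ i a = -1} :=
      Cl_pred (hT i hi) fun e => e + χ i a = -1
    have hd : Disjoint {x | x ∈ 𝒯.W ∧ x ∈ T i ∧ c i x + χ i a ≠ -1}
        {x | x ∈ 𝒯.W ∧ x ∈ T i ∧ c i x + χ i a = -1} := by
      rw [Set.disjoint_left]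
      intro x hx hx'
      exact hx.2.2 hx'.2.2
    set Tp := {x | x ∈ 𝒯.W ∧ x ∈ T i ∧ c i x + χ i a ≠ -1} with hTpdef
    set Tm := {x | x ∈ 𝒯.W ∧ x ∈ T i ∧ c i x + χ i a = -1} with hTmdef
    have hfull : ∀ b ∈ A₀, χ i b = χ i a →
        𝒯.Adm2 Tp Tm (hs i) 𝒯.W (fun x => (fam b x, fam (b + v i) x)) := by
      intro b hb hba
      refine ⟨hfam b hb, hfam _ (hA₀ i hi b hb), ?_, ?_⟩
      · rintro x hx ⟨-, hxT, hxc⟩
        exact h1 i hi b hb x hx hxT (by rw [hba]; exact hxc)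
      · rintro x hx ⟨-, hxT, hxc⟩
        exact h2 i hi b hb x hx hxT (by rw [hba]; exact hxc)
    by_cases hl' : l = []
    · subst hl'
      have h3 := 𝒯.vanish (hs i) hTp hTm hd (fun x hx => by
        obtain ⟨j, hj, hxj⟩ := hcov x hx
        rw [List.mem_singleton] at hj
        subst hj
        by_cases hc : c j x + χ j a = -1
        · exact Or.inr ⟨hx, hxj, hc⟩
        · exact Or.inl ⟨hx, hxj, hc⟩) (hfull a ha rfl).1 (hfull a ha rfl).2.1 (hfull a ha rfl).2.2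
      change 𝒯.δ (fam a) - 𝒯.δ (fam (a + v i)) = 0
      rw [sub_eq_zero]
      exact h3
    · have hlT : ∀ j ∈ l, ∀ e : ZMod p, Cl g {x | x ∈ 𝒯.W ∧ x ∈ T j ∧ c j x = e} := fun j hj =>
        hT j (List.mem_cons_of_mem _ hj)
      have hW' : Cl g {x | x ∈ 𝒯.W ∧ ∃ j ∈ l, x ∈ T j} := Cl_list T c l hlT
      have hW'W : {x | x ∈ 𝒯.W ∧ ∃ j ∈ l, x ∈ T j} ⊆ 𝒯.W := fun x hx => hx.1
      have hcov' : 𝒯.W ⊆ {x | x ∈ 𝒯.W ∧ ∃ j ∈ l, x ∈ T j} ∪ (Tp ∪ Tm) := by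
        intro x hx
        obtain ⟨j, hj, hxj⟩ := hcov x hx
        rcases List.mem_cons.1 hj with rfl | hj
        · right
          by_cases hc : c j x + χ j a = -1
          · exact Or.inr ⟨hx, hxj, hc⟩
          · exact Or.inl ⟨hx, hxj, hc⟩
        · exact Or.inl ⟨hx, j, hj, hxj⟩
      set W' := {x | x ∈ 𝒯.W ∧ ∃ j ∈ l, x ∈ T j} with hW'def
      have hnd' := List.nodup_cons.1 hnd
      have hne : ∀ j ∈ l, i ≠ j := fun j hj h => hnd'.1 (h ▸ hj)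
      have hstep : ∀ j ∈ l, ∀ b ∈ {b | b ∈ A₀ ∧ χ i b = χ i a},
          b + v j ∈ {b | b ∈ A₀ ∧ χ i b = χ i a} := by
        rintro j hj b ⟨hb, hba⟩
        refine ⟨hA₀ j (List.mem_cons_of_mem _ hj) b hb, ?_⟩
        rw [hχ i hi j (List.mem_cons_of_mem _ hj) (hne j hj), hba]
      have h3 := ih hl' hnd'.2 (𝒯.double (hs i) hTp hTm hd hW' hW'W hcov')
        {b | b ∈ A₀ ∧ χ i b = χ i a} (fun b x => (fam b x, fam (b + v i) x))
        (fun j hj e => by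
          have h4 : {x | x ∈ W' ∧ x ∈ T j ∧ c j x = e} = {x | x ∈ 𝒯.W ∧ x ∈ T j ∧ c j x = e} := by
            ext x
            constructor
            · rintro ⟨h5, h6⟩
              exact ⟨h5.1, h6⟩
            · rintro ⟨h5, h6⟩
              exact ⟨⟨h5, j, hj, h6.1⟩, h6⟩
          change Cl g {x | x ∈ W' ∧ x ∈ T j ∧ c j x = e}
          rw [h4]
          exact hlT j hj e)
        (fun x hx => hx.2)
        (fun b hb => by
          obtain ⟨h4, h5, h6, h7⟩ := hfull b hb.1 hb.2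
          exact ⟨𝒯.mono h4 hW'W, 𝒯.mono h5 hW'W, fun x hx => h6 x (hW'W hx),
            fun x hx => h7 x (hW'W hx)⟩)
        hstep
        (fun j hj k hk hjk b => hχ j (List.mem_cons_of_mem _ hj) k (List.mem_cons_of_mem _ hk)
          hjk b)
        (fun j hj b hb x hx hxT hxc => by
          have hj' := List.mem_cons_of_mem i hj
          refine Prod.ext (h1 j hj' b hb.1 x (hW'W hx) hxT hxc) ?_
          change fam (b + v j + v i) x = fam (b + v i) x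
          rw [add_right_comm]
          exact h1 j hj' _ (hA₀ i hi b hb.1) x (hW'W hx) hxT
            (by rw [hχ j hj' i hi (hne j hj).symm]; exact hxc))
        (fun j hj b hb x hx hxT hxc => by
          have hj' := List.mem_cons_of_mem i hj
          refine Prod.ext (h2 j hj' b hb.1 x (hW'W hx) hxT hxc) ?_
          change fam (b + v j + v i) (g (hs j) x) = fam (b + v i) x
          rw [add_right_comm]
          exact h2 j hj' _ (hA₀ i hi b hb.1) x (hW'W hx) hxT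
            (by rw [hχ j hj' i hi (hne j hj).symm]; exact hxc))
        ⟨ha, rfl⟩
      rw [← h3]
      change Dl v l (fun b => 𝒯.δ (fam b) - 𝒯.δ (fam (b + v i))) a = _
      refine Dl_congr v l hstep (fun b hb => ?_) ⟨ha, rfl⟩
      exact (𝒯.δ2_eq (hs i) hTp hTm hd hW' hW'W hcov' (hfull b hb.1 hb.2) fun x _ => rfl).symm

end Pool.Agent.Helper83.RK2
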