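import Pool.Agent.Helper83.RK2.Sum
import Pool.Agent.Helper83.RK.Core

/-!
# The topological core of the rank theorem, with one more function
-/

set_option autoImplicit false
set_option linter.unusedSectionVars false
set_option linter.unusedVariables false

open Set MeasureTheory Metric Filter Topology
open scoped NNReal ENNReal

namespace Pool.Agent.Helper83.RK2

open Pool.Agent.Helper3.HS Pool.Agent.Helper83.RK

section sep

variable {n m p : ℕ} [Fact p.Prime] (P : PD n m p)

/-- The distance of an orbit of the subgroup of the multiples of `p` from a set. -/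
noncomputable def swt (S : Set (Fin n → ℝ)) (x : Fin n → ℝ) : ℝ :=
  sInf ((fun b : Gp m p => wt S (P.g (p • b) x)) '' univ)

variable {P}

theorem swt_bdd (S : Set (Fin n → ℝ)) (x : Fin n → ℝ) :
    BddBelow ((fun b : Gp m p => wt S (P.g (p • b) x)) '' univ) :=
  ⟨0, by rintro _ ⟨a, -, rfl⟩; exact wt_nonneg _⟩

theorem swt_continuousOn (S : Set (Fin n → ℝ)) : ContinuousOn (swt P S) P.U := by
  rw [continuousOn_iff_continuous_restrict]
  have h1 : Continuous (fun q : P.U × Gp m p => wt S (P.g (p • q.2) q.1.1)) := by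
    apply wt_continuous.comp
    have h2 := continuousOn_iff_continuous_restrict.1 P.hgj
    have h3 : Continuous (fun q : P.U × Gp m p =>
        (⟨(p • q.2, q.1.1), ⟨mem_univ _, q.1.2⟩⟩ :
          (univ ×ˢ P.U : Set (Gp m p × (Fin n → ℝ))))) := by
      fun_prop
    exact h2.comp h3
  exact isCompact_univ.continuous_sInf
    (f := fun (x : P.U) (a : Gp m p) => wt S (P.g (p • a) x.1)) h1

theorem swt_nonneg (S : Set (Fin n → ℝ)) (x : Fin n → ℝ) : 0 ≤ swt P S x := by
  apply le_csInf (image_nonempty.2 univ_nonempty)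
  rintro _ ⟨a, -, rfl⟩
  exact wt_nonneg _

theorem swt_g (S : Set (Fin n → ℝ)) (b : Gp m p) {x : Fin n → ℝ} (hx : x ∈ P.U) :
    swt P S (P.g (p • b) x) = swt P S x := by
  unfold swt
  congr 1
  ext r
  constructor
  · rintro ⟨a, -, rfl⟩
    exact ⟨a + b, mem_univ _, by simp only [smul_add, P.hgadd _ _ x hx]⟩
  · rintro ⟨a, -, rfl⟩
    refine ⟨a - b, mem_univ _, ?_⟩
    simp only
    rw [← P.hgadd _ _ x hx, ← smul_add, sub_add_cancel]

theorem swt_zero {S : Set (Fin n → ℝ)} (hS : Cl (fun b => P.g (p • b)) S) (hSU : S ⊆ P.U)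
    {x : Fin n → ℝ} (hx : x ∈ P.U) : swt P S x = 0 ↔ x ∈ S := by
  constructor
  · intro h
    have hc : Continuous fun a : Gp m p => wt S (P.g (p • a) x) := by
      apply wt_continuous.comp
      have h2 : ContinuousOn (fun a : Gp m p => P.g (p • a) x) univ :=
        P.hgj.comp (f := fun a : Gp m p => (p • a, x)) (by fun_prop) (fun a _ => ⟨mem_univ _, hx⟩)
      exact continuousOn_univ.1 h2
    have h1 : swt P S x ∈ (fun a : Gp m p => wt S (P.g (p • a) x)) '' univ :=
      (isCompact_univ.image hc).sInf_mem (image_nonempty.2 univ_nonempty)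
    obtain ⟨a, -, ha⟩ := h1
    rw [h] at ha
    have h2 : P.g (p • a) x ∈ S := by
      by_contra hn
      have := (wt_pos hS.1).2 hn
      simp only at ha
      linarith
    have h3 := hS.2 (-a) _ h2
    simp only at h3
    rwa [← P.hgadd _ _ x hx, ← smul_add, neg_add_cancel, smul_zero, P.hg0 x hx] at h3
  · intro h
    apply le_antisymm _ (swt_nonneg S x)
    have h1 : swt P S x ≤ wt S (P.g (p • (0 : Gp m p)) x) := csInf_le (swt_bdd S x) ⟨0, mem_univ _, rfl⟩
    rw [smul_zero, P.hg0 x hx] at h1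
    refine h1.trans (le_of_eq ?_)
    by_contra hn
    have h2 : 0 < wt S x := lt_of_le_of_ne (wt_nonneg x) (Ne.symm hn)
    exact (wt_pos hS.1).1 h2 h

/-- Small elements of the group move the points of a compact set only little. -/
theorem conv {L : Set (Fin n → ℝ)} (hL : IsCompact L) (hLU : L ⊆ P.U) (b : Gp m p) {η : ℝ}
    (hη : 0 < η) : ∀ᶠ M : ℕ in atTop, ∀ x ∈ L, dist (P.g (p • (p ^ M • b)) x) x < η := by
  have h1 : ∀ᶠ a : Gp m p in 𝓝 0, ∀ x ∈ L, dist (P.g a x) x < η := by
    apply hL.eventually_forall_of_forall_eventually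
    intro x hx
    have h2 : ContinuousAt (fun q : Gp m p × (Fin n → ℝ) => dist (P.g q.1 q.2) q.2) (0, x) := by
      have h3 : ContinuousAt (fun q : Gp m p × (Fin n → ℝ) => P.g q.1 q.2) (0, x) :=
        P.hgj.continuousAt ((isOpen_univ.prod P.hU).mem_nhds ⟨mem_univ _, hLU hx⟩)
      exact Filter.Tendsto.dist h3 continuousAt_snd
    apply h2.eventually_lt_const
    simp only
    rw [P.hg0 x (hLU hx), dist_self]
    exact hη
  have h3 : Tendsto (fun M : ℕ => (p • (p ^ M • b) : Gp m p)) atTop (𝓝 0) := by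
    rw [tendsto_pi_nhds]
    intro i
    have h4 : Tendsto (fun M : ℕ => (p : ℤ_[p]) ^ (M + 1) * b i) atTop (𝓝 (0 * b i)) := by
      apply Tendsto.mul_const
      have h6 : ‖(p : ℤ_[p])‖ < 1 := by
        rw [PadicInt.norm_p]
        exact inv_lt_one_of_one_lt₀ (by exact_mod_cast (Fact.out : p.Prime).one_lt)
      exact (tendsto_pow_atTop_nhds_zero_of_norm_lt_one h6).comp (tendsto_add_atTop_nat 1)
    rw [zero_mul] at h4
    refine h4.congr fun M => ?_
    have h5 : (p • (p ^ M • b) : Gp m p) i = p • (p ^ M • b i) := rfl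
    rw [h5, nsmul_eq_mul, nsmul_eq_mul, Nat.cast_pow]
    ring
  exact h3.eventually h1

end sep

/-- **The topological core.** -/
theorem core2 {n m p : ℕ} [Fact p.Prime] (P : PD n (m + 1) p)
    {F : (Fin n → ℝ) → (Fin n → ℝ)} (hF : Continuous F) (hFg : ∀ a, ∀ x ∈ P.U, F (P.g a x) = F x)
    {y : Fin n → ℝ} (hy : ∀ x ∈ closure P.U, F x = y → x ∈ P.U)
    {κ : Type} (f : κ → (Fin n → ℝ) → ℝ) (hfc : ∀ j, ContinuousOn (f j) P.U)
    (hfg : ∀ j a, ∀ x ∈ P.U, f j (P.g a x) = f j x)
    (hfs : ∀ x ∈ P.U, ∀ η : ℝ, 0 < η → ∃ j, 0 < f j x ∧ ∀ z ∈ P.U, 0 < f j z →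
      ∃ a, dist (P.g a z) x < η)
    (T : Fin n → Set ℝ) (hT : ∀ i, Dense (T i))
    (hN : ∀ i, ∀ t ∈ T i, ∀ J : Fin (m + 1) → κ,
      volume ((fun x => fun k => f (J k) x) '' {x | x ∈ P.U ∧ F x = y ∧ x i = t}) = 0)
    {d : ℝ} (hd : HasDeg (volume : Measure (Fin n → ℝ)) P.U F y d) : ∃ z : ℤ, d = p * z := by
  classical
  set Φ : Set (Fin n → ℝ) := {x | x ∈ P.U ∧ F x = y} with hΦdef
  have hΦU : Φ ⊆ P.U := fun x hx => hx.1
  have hΦc : IsCompact Φ := by
    have h1 : Φ = closure P.U ∩ F ⁻¹' {y} := by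
      ext x
      exact ⟨fun h => ⟨subset_closure h.1, h.2⟩, fun h => ⟨hy x h.1 h.2, h.2⟩⟩
    rw [h1]
    exact P.hUb.isCompact_closure.inter_right (isClosed_singleton.preimage hF)
  -- a compact neighbourhood and the displacement
  obtain ⟨L, hL, hΦL, hLU⟩ := exists_compact_between hΦc P.hU hΦU
  obtain ⟨r, hr, hdisp⟩ := P.exists_disp hL hLU
  obtain ⟨η₁, hη₁, hthick⟩ := hΦc.exists_thickening_subset_open isOpen_interior hΦL
  set η : ℝ := min η₁ (r / 2) with hηdef
  have hη : 0 < η := by positivity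
  -- boxes and functions
  have hbox : ∀ x ∈ Φ, ∃ (a b : Fin n → ℝ) (j : κ), (∀ i, a i ∈ T i ∧ b i ∈ T i) ∧
      x ∈ Set.pi univ (fun i => Ioo (a i) (b i)) ∧
      Set.pi univ (fun i => Ioo (a i) (b i)) ⊆ ball x η ∧ 0 < f j x ∧
      ∀ z ∈ P.U, 0 < f j z → ∃ c, P.g c z ∈ Set.pi univ (fun i => Ioo (a i) (b i)) := by
    intro x hx
    have ha : ∀ i, ∃ s ∈ T i, s ∈ Ioo (x i - η) (x i) := fun i =>
      (hT i).exists_between (by linarith)
    have hb : ∀ i, ∃ s ∈ T i, s ∈ Ioo (x i) (x i + η) := fun i =>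
      (hT i).exists_between (by linarith)
    choose a haT ha using ha
    choose b hbT hb using hb
    have hxQ : x ∈ Set.pi univ (fun i => Ioo (a i) (b i)) := fun i _ => ⟨(ha i).2, (hb i).1⟩
    have hQo : IsOpen (Set.pi univ (fun i => Ioo (a i) (b i))) :=
      isOpen_set_pi finite_univ fun i _ => isOpen_Ioo
    obtain ⟨η', hη', hball⟩ := Metric.isOpen_iff.1 hQo x hxQ
    obtain ⟨j, hj, hjs⟩ := hfs x hx.1 η' hη'
    refine ⟨a, b, j, fun i => ⟨haT i, hbT i⟩, hxQ, ?_, hj, fun z hz hz' => ?_⟩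
    · intro z hz
      rw [mem_ball, dist_pi_lt_iff hη]
      intro i
      have h1 := hz i (mem_univ i)
      rw [Real.dist_eq, abs_lt]
      constructor
      · linarith [(ha i).1, h1.1]
      · linarith [(hb i).2, h1.2]
    · obtain ⟨c, hc⟩ := hjs z hz hz'
      exact ⟨c, hball hc⟩
  choose a b j hab hxQ hQη hj hjs using hbox
  -- a finite subcover
  obtain ⟨t, ht⟩ := hΦc.elim_nhds_subcover' (fun x hx => {z | f (j x hx) x / 2 < f (j x hx) z} ∩
      Set.pi univ (fun i => Ioo (a x hx i) (b x hx i)))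
    (fun x hx => inter_mem (((hfc (j x hx)).continuousAt
        (P.hU.mem_nhds (hΦU hx))).eventually_const_lt (by linarith [hj x hx]))
      ((isOpen_set_pi finite_univ fun i _ => isOpen_Ioo).mem_nhds (hxQ x hx)))
  obtain ⟨c, hc, hct⟩ := exists_pos_le_finset t (fun x : Φ => f (j x.1 x.2) x.1 / 2)
    (fun x _ => by linarith [hj x.1 x.2])
  let ι : Type := {x : Φ // x ∈ t}
  let Q : ι → Set (Fin n → ℝ) := fun s =>
    Set.pi univ (fun i => Ioo (a s.1.1 s.1.2 i) (b s.1.1 s.1.2 i))
  let ff : ι → (Fin n → ℝ) → ℝ := fun s => f (j s.1.1 s.1.2)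
  have hffc : ∀ s, ContinuousOn (ff s) P.U := fun s => hfc _
  have hffg : ∀ s a, ∀ x ∈ P.U, ff s (P.g a x) = ff s x := fun s a x hx => hfg _ a x hx
  have hQo : ∀ s, IsOpen (Q s) := fun s => isOpen_set_pi finite_univ fun i _ => isOpen_Ioo
  have hQL : ∀ s, Q s ⊆ L := by
    intro s z hz
    have h1 := hQη s.1.1 s.1.2 hz
    apply interior_subset
    apply hthick
    rw [mem_thickening_iff]
    exact ⟨s.1.1, s.1.2, (mem_ball.1 h1).trans_le (min_le_left _ _)⟩
  have hQs : ∀ s, P.Small (Q s) := by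
    intro s
    apply P.small_of_disp hdisp (hQL s)
    intro x hx z hz
    have h1 := mem_ball.1 (hQη s.1.1 s.1.2 hx)
    have h2 := mem_ball.1 (hQη s.1.1 s.1.2 hz)
    have h3 := dist_triangle_right x z s.1.1
    have h4 : η ≤ r / 2 := min_le_right _ _
    linarith
  have hfront : ∀ s, ∀ x ∈ frontier (Q s), ∃ i, x i = a s.1.1 s.1.2 i ∨ x i = b s.1.1 s.1.2 i := by
    intro s x hx
    rw [(hQo s).frontier_eq] at hx
    have h1 : x ∈ Set.pi univ (fun i => Icc (a s.1.1 s.1.2 i) (b s.1.1 s.1.2 i)) := by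
      refine closure_minimal ?_ (isClosed_set_pi fun i _ => isClosed_Icc) hx.1
      exact Set.pi_mono fun i _ => Ioo_subset_Icc_self
    have h2 : ∃ i, x i ∉ Ioo (a s.1.1 s.1.2 i) (b s.1.1 s.1.2 i) := by
      by_contra h
      push Not at h
      exact hx.2 fun i _ => h i
    obtain ⟨i, hi⟩ := h2
    refine ⟨i, ?_⟩
    have h3 := h1 i (mem_univ i)
    by_contra h
    push Not at h
    exact hi ⟨lt_of_le_of_ne h3.1 (Ne.symm h.1), lt_of_le_of_ne h3.2 h.2⟩
  -- the levels of positive measure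
  let G : ι → (Fin n → ℝ) → ℝ := fun s => P.U.piecewise (ff s) 0
  have hGm : ∀ s, Measurable (G s) := fun s =>
    ContinuousOn.measurable_piecewise (hffc s) continuousOn_const P.hU.measurableSet
  let bad : ι → Set ℝ := fun s =>
    {e | 0 < (volume : Measure (Fin n → ℝ)) {x | G s x = e}}
  have hbad : ∀ s, (bad s).Countable := fun s => Measure.countable_meas_level_set_pos (hGm s)
  -- generic thresholds
  let K : Type := ι × Fin n × Bool × {ψ : Fin (m + 1) → ι × Fin (m + 1) // Function.Injective ψ}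
  obtain ⟨thr, -, hthr, hthrZ⟩ := exists_thresholds (J := ι × Fin (m + 1)) (m := m + 1)
    (ι := K ⊕ ι)
    (Sum.elim (fun q => q.2.2.2.1) (fun s k => (s, k)))
    (by
      rintro (q | s)
      · exact q.2.2.2.2
      · intro k k' hk
        exact congrArg Prod.snd hk)
    (Sum.elim (fun q => (fun x => fun k => ff (q.2.2.2.1 k).1 x) '' {x | x ∈ P.U ∧ F x = y ∧
      x q.2.1 = if q.2.2.1 then a q.1.1.1 q.1.1.2 q.2.1 else b q.1.1.1 q.1.1.2 q.2.1})
      (fun s => {v | ∃ k, v k ∈ bad s}))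
    (by
      rintro (q | s)
      · apply hN q.2.1
        split_ifs
        · exact (hab q.1.1.1 q.1.1.2 q.2.1).1
        · exact (hab q.1.1.1 q.1.1.2 q.2.1).2
      · have h1 : {v : Fin (m + 1) → ℝ | ∃ k, v k ∈ bad s} =
            ⋃ k, (Function.eval k) ⁻¹' (bad s) := by
          ext v
          simp
        simp only [Sum.elim_inr]
        rw [h1, measure_iUnion_null_iff]
        intro k
        exact (Measure.quasiMeasurePreserving_eval _ k).preimage_null ((hbad s).measure_zero _)) hc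
  have hthrB : ∀ s k, thr (s, k) ∉ bad s := fun s k h => hthrZ (Sum.inr s) ⟨k, h⟩
  let tt : ι → ℝ := fun s => thr (s, Fin.last m)
  have htt0 : ∀ s, 0 < tt s := fun s => (hthr _).1
  -- the walls
  let Wl : Set (Fin n → ℝ) := {x | ∃ s, ff s x = tt s}
  have hWlg : ∀ a, ∀ x ∈ P.U, x ∈ Wl → P.g a x ∈ Wl := by
    rintro a x hx ⟨s, hs⟩
    exact ⟨s, by rw [hffg s a x hx]; exact hs⟩
  have hsign : ∀ x ∈ P.U, x ∉ Wl → ∀ᶠ z in 𝓝 x, ∀ s, (tt s < ff s z ↔ tt s < ff s x) ∧
      (ff s z < tt s ↔ ff s x < tt s) := by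
    intro x hx hxW
    rw [eventually_all]
    intro s
    have h1 : ff s x ≠ tt s := fun h => hxW ⟨s, h⟩
    have hc := (hffc s).continuousAt (P.hU.mem_nhds hx)
    rcases lt_or_gt_of_ne h1 with h | h
    · filter_upwards [hc.eventually_lt_const h] with z hz
      exact ⟨⟨fun h' => absurd h' (not_lt.2 hz.le), fun h' => absurd h' (not_lt.2 h.le)⟩,
        ⟨fun _ => h, fun _ => hz⟩⟩
    · filter_upwards [hc.eventually_const_lt h] with z hz
      exact ⟨⟨fun _ => h, fun _ => hz⟩,
        ⟨fun h' => absurd h' (not_lt.2 hz.le), fun h' => absurd h' (not_lt.2 h.le)⟩⟩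
  have hWl : IsOpen (P.U \ Wl) := by
    rw [isOpen_iff_mem_nhds]
    rintro x ⟨hx, hxW⟩
    have h1 : ∀ᶠ z in 𝓝 x, ∀ s, ff s z ≠ tt s := by
      filter_upwards [hsign x hx hxW] with z hz s heq
      have h2 : ff s x ≠ tt s := fun h => hxW ⟨s, h⟩
      rcases lt_or_gt_of_ne h2 with h | h
      · exact absurd ((hz s).2.2 h) (by rw [heq]; exact lt_irrefl _)
      · exact absurd ((hz s).1.2 h) (by rw [heq]; exact lt_irrefl _)
    filter_upwards [P.hU.mem_nhds hx, h1] with z hz h2
    exact ⟨hz, fun ⟨s, hs⟩ => h2 s hs⟩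
  have hWl0 : (volume : Measure (Fin n → ℝ)) (P.U ∩ Wl) = 0 := by
    have h1 : P.U ∩ Wl ⊆ ⋃ s, {x | G s x = tt s} := by
      rintro x ⟨hx, s, hs⟩
      refine mem_iUnion.2 ⟨s, ?_⟩
      change P.U.piecewise (ff s) 0 x = tt s
      rw [piecewise_eq_of_mem _ _ _ hx]
      exact hs
    apply measure_mono_null h1
    rw [measure_iUnion_null_iff]
    intro s
    have h2 := hthrB s (Fin.last m)
    simpa [bad] using h2
  -- the types on the walls
  let lam : Gp (m + 1) p →+ (Fin (m + 1) → ZMod p) :=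
    { toFun := fun a i => PadicInt.toZMod (a i)
      map_zero' := by
        funext i
        simp
      map_add' := fun a b => by
        funext i
        simp }
  obtain ⟨N, l, hNo, hNU, hNg, hlN, hlg, hcov⟩ := Pool.Agent.Helper43.Rank.cover lam P.hU P.hgU
    P.hgadd P.hgj (Q := Q) hQo (fun s a x _ hx hgx => by
      by_contra hne
      have h1 : Prim a := by
        by_contra hp
        apply hne
        funext i
        exact not_prim hp i
      exact hQs s a h1 x hx hgx)
    (f := ff) hffc hffg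
    (fun s x hx hx' => hjs s.1.1 s.1.2 x hx hx')
    (thr := fun s => thr (s.1, s.2.castSucc)) (fun s => (hthr _).1.le)
    (Φ := {x | x ∈ Φ ∧ x ∈ Wl}) (fun x hx => hΦU hx.1)
    (fun x hx => by
      obtain ⟨z, hz, hzx⟩ := mem_iUnion₂.1 (ht hx.1)
      refine ⟨⟨z, hz⟩, fun a => ?_, 0, ?_⟩
      · exact ((hthr _).2.trans_le (hct z hz)).trans hzx.1
      · rw [P.hg0 x hx.1.1]
        exact hzx.2)
    (fun x hx hfr => by
      obtain ⟨s, e, hse⟩ := hfr
      obtain ⟨hxΦ, s₀, hs₀⟩ := hx
      by_contra hcard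
      push Not at hcard
      have hfin : Finite {s : ι × Fin m | ff s.1 x = thr (s.1, s.2.castSucc)} := inferInstance
      obtain ⟨ψ⟩ : Nonempty (Fin m ↪ {s : ι × Fin m | ff s.1 x = thr (s.1, s.2.castSucc)}) := by
        have := Fintype.ofFinite {s : ι × Fin m | ff s.1 x = thr (s.1, s.2.castSucc)}
        apply Function.Embedding.nonempty_of_card_le
        rw [Fintype.card_fin, ← Nat.card_eq_fintype_card, Nat.card_coe_set_eq]
        exact hcard
      obtain ⟨i, hi⟩ := hfront s _ hse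
      let ψ' : Fin (m + 1) → ι × Fin (m + 1) := Fin.snoc (α := fun _ => ι × Fin (m + 1))
        (fun k => ((ψ k).1.1, (ψ k).1.2.castSucc)) (s₀, Fin.last m)
      have hinj : Function.Injective ψ' := by
        intro k k' hk
        induction k using Fin.lastCases with
        | last =>
          induction k' using Fin.lastCases with
          | last => rfl
          | cast k' =>
            exfalso
            simp only [ψ', Fin.snoc_last, Fin.snoc_castSucc] at hk
            exact (Fin.castSucc_lt_last _).ne' (congrArg Prod.snd hk)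
        | cast k =>
          induction k' using Fin.lastCases with
          | last =>
            exfalso
            simp only [ψ', Fin.snoc_last, Fin.snoc_castSucc] at hk
            exact (Fin.castSucc_lt_last _).ne (congrArg Prod.snd hk)
          | cast k' =>
            simp only [ψ', Fin.snoc_castSucc] at hk
            have h1 := congrArg Prod.fst hk
            have h2 := Fin.castSucc_injective _ (congrArg Prod.snd hk)
            have h3 : ψ k = ψ k' := Subtype.ext (Prod.ext h1 h2)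
            rw [ψ.injective h3]
      have hmem : P.g e x ∈ P.U := P.hgU e x hxΦ.1
      have hF' : F (P.g e x) = y := by rw [hFg e x hxΦ.1]; exact hxΦ.2
      have hval : ∀ k, ff (ψ' k).1 (P.g e x) = thr (ψ' k) := by
        intro k
        rw [hffg _ e x hxΦ.1]
        induction k using Fin.lastCases with
        | last =>
          simp only [ψ', Fin.snoc_last]
          exact hs₀
        | cast k =>
          simp only [ψ', Fin.snoc_castSucc]
          exact (ψ k).2
      rcases hi with hi | hi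
      · apply hthrZ (Sum.inl (s, i, true, ⟨ψ', hinj⟩))
        refine ⟨P.g e x, ⟨hmem, hF', by simpa using hi⟩, ?_⟩
        funext k
        exact hval k
      · apply hthrZ (Sum.inl (s, i, false, ⟨ψ', hinj⟩))
        refine ⟨P.g e x, ⟨hmem, hF', by simpa using hi⟩, ?_⟩
        funext k
        exact hval k)
  have hmuc : ∀ i, ContinuousOn (P.iwt (N i)) P.U := fun i => PD.iwt_continuousOn (N i)
  -- the neighbourhood of the fibre
  have hO : IsOpen {x | x ∈ P.U ∧ (x ∉ Wl ∨ ∃ i, 0 < P.iwt (N i) x) ∧ ∃ s, tt s < ff s x} := by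
    rw [isOpen_iff_mem_nhds]
    rintro x ⟨hx, h1, s, hs⟩
    have h2 := ((hffc s).continuousAt (P.hU.mem_nhds hx)).eventually_const_lt hs
    rcases h1 with h1 | ⟨i, hi⟩
    · filter_upwards [hWl.mem_nhds ⟨hx, h1⟩, h2] with z h3 h4
      exact ⟨h3.1, Or.inl h3.2, s, h4⟩
    · filter_upwards [P.hU.mem_nhds hx, h2,
        ((hmuc i).continuousAt (P.hU.mem_nhds hx)).eventually_const_lt hi] with z h3 h4 h5
      exact ⟨h3, Or.inr ⟨i, h5⟩, s, h4⟩
  obtain ⟨ε, hε, hεO⟩ := P.exists_eps hF (y := y) hO (fun x hx heq => by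
    have hxU := hy x hx heq
    refine ⟨hxU, ?_, ?_⟩
    · by_cases hxW : x ∈ Wl
      · right
        obtain ⟨i, hi⟩ := hcov x ⟨⟨hxU, heq⟩, hxW⟩
        exact ⟨i, (PD.iwt_pos (hNo i) (hNg i) hxU).2 hi⟩
      · exact Or.inl hxW
    · obtain ⟨z, hz, hzx⟩ := mem_iUnion₂.1 (ht (show x ∈ Φ from ⟨hxU, heq⟩))
      exact ⟨⟨z, hz⟩, ((hthr _).2.trans_le (hct z hz)).trans hzx.1⟩)
  have hmax : ∀ i, ∀ x ∈ P.U, x ∈ Wl → dist (F x) y ≤ 2 * ε →
      (∀ j, P.iwt (N j) x ≤ P.iwt (N i) x) → x ∈ N i := by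
    intro i x hx hxW hd hm
    obtain ⟨-, h1 | ⟨i₀, hi₀⟩, -⟩ := hεO x (subset_closure hx) hd
    · exact absurd hxW h1
    · exact (PD.iwt_pos (hNo i) (hNg i) hx).1 (hi₀.trans_le (hm i₀))
  let D : WDat (volume : Measure (Fin n → ℝ)) (Gp (m + 1) p) p (Fin (m + 1)) :=
    { U := P.U
      g := P.g
      F := F
      y := y
      ε := ε
      χ := fun i => (Pi.evalAddMonoidHom (fun _ => ZMod p) i).comp lam
      v := fun i => Pi.single i 1
      mu := fun i x => P.iwt (N i) x
      lab := l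
      Wl := Wl
      hU := P.hU
      hUb := P.hUb
      hg := P.hg
      hgU := P.hgU
      hg0 := P.hg0
      hgadd := P.hgadd
      hpos := P.hpos
      hF := hF
      hFg := hFg
      hε := hε
      hK := fun x hx hd => (hεO x hx hd).1
      hχ := fun i j => by
        change PadicInt.toZMod ((Pi.single j (1 : ℤ_[p]) : Gp (m + 1) p) i) = _
        by_cases h : i = j
        · subst h
          simp
        · rw [Pi.single_eq_of_ne h, map_zero, if_neg h]
      hmu := fun i => hmuc i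
      hmug := fun i a x hx => PD.iwt_g (N i) a hx
      hWl := hWl
      hWlg := hWlg
      hWl0 := hWl0
      hlab := fun i x hx hxW hd hm => hlN i x (hmax i x hx hxW hd hm)
      hlabg := fun i a x hx hxW hd hm => hlg i a x (hmax i x hx hxW hd hm) }
  -- the chambers
  let e := Fintype.equivFin ι
  have hCo : ∀ s, IsOpen {x | x ∈ P.U ∧ tt s < ff s x ∧ ∀ u, e u < e s → ff u x < tt u} := by
    intro s
    rw [isOpen_iff_mem_nhds]
    rintro x ⟨hx, h1, h2⟩
    have h3 : ∀ᶠ z in 𝓝 x, ∀ u, e u < e s → ff u z < tt u := by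
      rw [eventually_all]
      intro u
      by_cases hu : e u < e s
      · filter_upwards [((hffc u).continuousAt (P.hU.mem_nhds hx)).eventually_lt_const (h2 u hu)]
          with z hz _
        exact hz
      · exact Eventually.of_forall fun z h => absurd h hu
    filter_upwards [P.hU.mem_nhds hx, h3,
      ((hffc s).continuousAt (P.hU.mem_nhds hx)).eventually_const_lt h1] with z h4 h5 h6
    exact ⟨h4, h6, h5⟩
  have hCQ : ∀ s, ∀ x ∈ P.U, tt s < ff s x → ∃ a, P.g (-a) x ∈ Q s := by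
    intro s x hx hs
    obtain ⟨c, hc⟩ := hjs s.1.1 s.1.2 x hx ((htt0 s).trans hs)
    exact ⟨-c, by rw [neg_neg]; exact hc⟩
  let C : ι → D.Chm := fun s =>
    { O := {x | x ∈ P.U ∧ tt s < ff s x ∧ ∀ u, e u < e s → ff u x < tt u}
      L := fun x i => P.lam (Q s) x i
      hO := hCo s
      hOU := fun x hx => hx.1
      hOg := fun a x hx => ⟨P.hgU a x hx.1, by rw [hffg s a x hx.1]; exact hx.2.1, fun u hu => by
        rw [hffg u a x hx.1]; exact hx.2.2 u hu⟩
      hOf := fun x hx hfr => by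
        by_contra hxW
        rw [(hCo s).frontier_eq] at hfr
        obtain ⟨z, hz, hz'⟩ :=
          ((mem_closure_iff_frequently.1 hfr.1).and_eventually (hsign x hx hxW)).exists
        exact hfr.2 ⟨hx, (hz' s).1.1 hz.2.1, fun u hu => (hz' u).2.1 (hz.2.2 u hu)⟩
      hL := fun x hx => by
        obtain ⟨a, ha⟩ := hCQ s x hx.1 hx.2.1
        filter_upwards [PD.lam_locally (hQs s) (hQo s) hx.1 ha] with z hz
        funext i
        exact hz i
      hLg := fun a x hx i => by
        obtain ⟨a', ha'⟩ := hCQ s x hx.1 hx.2.1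
        exact PD.lam_g (hQs s) hx.1 ha' a i }
  apply D.deg_dvd (Nat.succ_pos m) C _ _ _ _ hd
  · intro s u hsu
    rw [Set.disjoint_left]
    rintro x hx hx'
    rcases lt_trichotomy (e s) (e u) with h | h | h
    · exact absurd (hx'.2.2 s h) (not_lt.2 hx.2.1.le)
    · exact hsu (e.injective h)
    · exact absurd (hx.2.2 u h) (not_lt.2 hx'.2.1.le)
  · intro x hx hdx hxW
    have hxW' : x ∉ Wl := hxW
    obtain ⟨-, -, s, hs⟩ := hεO x (subset_closure hx) hdx
    have hne : (Finset.univ.filter fun u : ι => tt u < ff u x).Nonempty :=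
      ⟨s, by simpa using hs⟩
    obtain ⟨u, hu, hmin⟩ := Finset.exists_min_image _ (fun u => e u) hne
    rw [Finset.mem_filter] at hu
    refine ⟨u, hx, hu.2, fun w hw => ?_⟩
    have h1 : ff w x ≠ tt w := fun h => hxW' ⟨w, h⟩
    rcases lt_or_gt_of_ne h1 with h | h
    · exact h
    · exact absurd (hmin w (by simpa using h)) (not_le.2 hw)
  · intro S hS hSK
    have hSU : S ⊆ P.U := fun x hx => (hSK hx).1
    exact ⟨swt P S, (swt_continuousOn S).mono fun x hx => hx.1, fun x _ => swt_nonneg S x,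
      fun x hx => swt_zero hS hSU hx.1, fun b x hx => swt_g S b hx.1⟩
  · intro b η' hη'
    exact conv D.isCompact_K (fun x hx => hx.1) b hη'

end Pool.Agent.Helper83.RK2
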