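import Pool.Agent.Helper83.RK.Main

/-!
# Actions of powers of the p-adic integers: the points with nontrivial stabiliser are dense

Let `R` be an open set of regular points of the metric space `X`, of dimension `n = d + 1`, and let
`(ℤ_p) ^ r`, `r = m + 1`, act continuously on `X`. The larger the rank `r`, the weaker the condition
on the oscillation of the homeomorphisms which excludes that the action is free.
-/

set_option autoImplicit false

open Set MeasureTheory Metric Filter Topology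
open scoped ENNReal

namespace Pool.Agent.Helper83.RankDensityOld

open Pool.Agent.Helper3.HS

/-- Let `n = d + 1` and `r = m + 1`, let `R` be an open set of regular points of the metric space
`X`, and let `ν` be the Haar probability measure of `(ℤ_p) ^ r`, acting continuously on `X`. If
every `x ∈ R` has a neighbourhood `V` such that for every `ε > 0` there is `h ∈ (0, 1]` with
`∫ ∫_V diam (a (B(y, h) ∩ V)) ^ (n + r - 1) dH^n(y) dν(a) ≤ ε * h ^ (n - 1)`, then the points which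
are fixed by some element `a ≠ 0` are dense in `R`. -/
theorem result {d m p : ℕ} [Fact p.Prime] [MeasurableSpace ℤ_[p]] [BorelSpace ℤ_[p]]
    {ν : Measure (Fin (m + 1) → ℤ_[p])} [ν.IsAddHaarMeasure] [IsProbabilityMeasure ν]
    {X : Type*} [MetricSpace X] [MeasurableSpace X] [BorelSpace X]
    [AddAction (Fin (m + 1) → ℤ_[p]) X] [ContinuousVAdd (Fin (m + 1) → ℤ_[p]) X]
    {R : Set X} (hRo : IsOpen R) (hR : R ⊆ regPts (d + 1) X)
    (hE : ∀ x ∈ R, ∃ V ∈ 𝓝 x, ∀ ε : ℝ≥0∞, 0 < ε → ∃ h : ℝ, 0 < h ∧ h ≤ 1 ∧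
      ∫⁻ a, ∫⁻ y in V, Metric.ediam ((fun z => a +ᵥ z) '' (ball y h ∩ V)) ^ (d + 1 + m)
        ∂(μH[((d + 1 : ℕ) : ℝ)] : Measure X) ∂ν ≤ ε * ENNReal.ofReal (h ^ d)) :
    R ⊆ closure {x | ∃ a : Fin (m + 1) → ℤ_[p], a ≠ 0 ∧ a +ᵥ x = x} := by
  intro x hx
  rw [mem_closure_iff_nhds]
  intro O hO
  obtain ⟨W, hWO, hWo, hxW⟩ := _root_.mem_nhds_iff.1 (Filter.inter_mem hO (hRo.mem_nhds hx))
  obtain ⟨K, hK⟩ := Pool.Agent.Helper83.RK.main (ν := ν) hWo ⟨x, hxW⟩
    (fun y hy => hR (hWO hy).2) (fun y hy => hE y (hWO hy).2)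
  obtain ⟨a, ha, y, hy, hay⟩ := hK K le_rfl
  refine ⟨y, (hWO hy).1, _, ?_, hay⟩
  intro h
  obtain ⟨i, hi⟩ := ha
  have h1 : (p : ℤ_[p]) ^ K * a i = 0 := by
    have := congrFun h i
    simpa using this
  have hp : (p : ℤ_[p]) ≠ 0 := by exact_mod_cast (Fact.out : p.Prime).ne_zero
  rcases mul_eq_zero.1 h1 with h2 | h2
  · exact pow_ne_zero K hp h2
  · exact hi (h2 ▸ dvd_zero _)

end Pool.Agent.Helper83.RankDensityOld
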