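import Pool.Agent.Helper83.RK2.Walls
import Pool.Agent.Helper93.RK2.Comb
import Pool.Agent.Helper9.RK2.Base
import Pool.Agent.Helper83.RK2.Alt

/-!
# The degree of an invariant map is divisible by `p`: the sum over the chambers
-/

set_option autoImplicit false
set_option linter.unusedSectionVars false
set_option linter.unusedVariables false

open Set MeasureTheory Metric Filter Topology
open scoped NNReal ENNReal

namespace Pool.Agent.Helper83.RK2

open Pool.Agent.Helper3.HS Pool.Agent.Helper83.RK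

variable {V : Type} [NormedAddCommGroup V] [NormedSpace ℝ V] [FiniteDimensional ℝ V]
  [MeasurableSpace V] [BorelSpace V]

namespace WDat

variable {μ : Measure V} [μ.IsAddHaarMeasure] {A : Type} [AddCommGroup A] {p r : ℕ} [NeZero p]
  (D : WDat μ A p (Fin r))

theorem inv (a : A) {x : V} (hx : x ∈ D.U) : D.g (-a) (D.g a x) = x := by
  rw [← D.hgadd _ _ x hx, neg_add_cancel, D.hg0 x hx]

theorem inv' (a : A) {x : V} (hx : x ∈ D.U) : D.g a (D.g (-a) x) = x := by
  rw [← D.hgadd _ _ x hx, add_neg_cancel, D.hg0 x hx]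

theorem image_eq (a : A) {O : Set V} (hO : O ⊆ D.U) :
    D.g a '' O = D.U ∩ (D.g (-a)) ⁻¹' O := by
  ext x
  constructor
  · rintro ⟨z, hz, rfl⟩
    exact ⟨D.hgU a z (hO hz), by rw [mem_preimage, D.inv a (hO hz)]; exact hz⟩
  · rintro ⟨hx, hx'⟩
    exact ⟨_, hx', D.inv' a hx⟩

theorem image_open (a : A) {O : Set V} (hO : O ⊆ D.U) (hOo : IsOpen O) :
    IsOpen (D.g a '' O) := by
  rw [D.image_eq a hO]
  exact D.hU.inter (hOo.preimage (D.hg _))

theorem image_sub (a : A) {O : Set V} (hO : O ⊆ D.U) : D.g a '' O ⊆ D.U := by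
  rintro _ ⟨z, hz, rfl⟩
  exact D.hgU a z (hO hz)

theorem transport (a : A) {X : Set V} (hX : IsOpen X) (hXU : X ⊆ D.U) {B : V → V}
    (hB : Continuous B) {y : V} {κ : ℝ} (hdeg : HasDeg μ (D.g a '' X) B y κ)
    (hne : ∀ x ∈ frontier X, B (D.g a x) ≠ y) : HasDeg μ X (fun x => B (D.g a x)) y κ := by
  have h1 := HasDeg.comp μ hX (D.hUb.subset hXU) (D.image_open a hXU hX)
    (D.hUb.subset (D.image_sub a hXU)) (D.hg a) hB (y := y) (s := 1) (k := κ)
    (fun x hx heq => by
      have hxX : x ∈ X := by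
        by_contra hn
        exact hne x (by rw [hX.frontier_eq]; exact ⟨hx, hn⟩) heq
      exact ⟨x, hxX, rfl⟩) hne
    (fun z hz _ => by
      obtain ⟨x, hx, rfl⟩ := hz
      exact D.hpos a X hXU hX x hx) hdeg
  rwa [one_mul] at h1

/-- The segments between values close to `F` do not meet `y`, far from the fibre. -/
theorem hseg {x : V} (hx : 2 * D.ε ≤ dist (D.F x) D.y) {z w : V} (hz : dist z (D.F x) ≤ D.ε)
    (hw : dist w (D.F x) ≤ D.ε) {t : ℝ} (ht : t ∈ Icc (0 : ℝ) 1) :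
    (1 - t) • (z - D.y) + t • (w - D.y) ≠ 0 := by
  intro heq
  have e : (1 - t) • (z - D.y) + t • (w - D.y) = ((1 - t) • z + t • w) - D.y := by module
  rw [e] at heq
  have h2 : (1 - t) • z + t • w ∈ closedBall (D.F x) D.ε :=
    convex_closedBall _ _ (mem_closedBall.mpr hz) (mem_closedBall.mpr hw)
      (by linarith [ht.2]) ht.1 (by ring)
  rw [sub_eq_zero.1 heq, mem_closedBall, dist_comm] at h2
  have := D.hε
  linarith

/-- A chamber. -/
structure Chm where
  O : Set V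
  L : V → Fin r → ZMod p
  hO : IsOpen O
  hOU : O ⊆ D.U
  hOg : ∀ a, ∀ x ∈ O, D.g a x ∈ O
  hOf : ∀ x ∈ D.U, x ∈ frontier O → x ∈ D.Wl
  hL : ∀ x ∈ O, ∀ᶠ x' in 𝓝 x, L x' = L x
  hLg : ∀ a, ∀ x ∈ O, ∀ i, L (D.g a x) i = L x i + D.χ i a

namespace Chm

variable {D} (C : D.Chm)

/-- The pieces of a chamber. -/
def M (t : Fin r → ZMod p) : Set V :=
  {x | x ∈ C.O ∧ dist (D.F x) D.y < 2 * D.ε ∧ C.L x = t}

theorem isOpen_M (t : Fin r → ZMod p) : IsOpen (C.M t) := by
  rw [isOpen_iff_mem_nhds]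
  intro x hx
  have h1 : ∀ᶠ x' in 𝓝 x, dist (D.F x') D.y < 2 * D.ε :=
    (D.hF.dist continuous_const).continuousAt.eventually_lt_const hx.2.1
  filter_upwards [C.hO.mem_nhds hx.1, h1, C.hL x hx.1] with x' h2 h3 h4
  exact ⟨h2, h3, h4.trans hx.2.2⟩

theorem M_sub (t : Fin r → ZMod p) : C.M t ⊆ D.U := fun _ hx => C.hOU hx.1

theorem M_sub' (t : Fin r → ZMod p) : C.M t ⊆ D.K₀ := fun _ hx => ⟨C.hOU hx.1, hx.2.1.le⟩

theorem closure_M (t : Fin r → ZMod p) : closure (C.M t) ⊆ D.K₀ :=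
  closure_minimal (C.M_sub' t) D.isCompact_K₀.isClosed

theorem M_bdd (t : Fin r → ZMod p) : Bornology.IsBounded (C.M t) := D.hUb.subset (C.M_sub t)

theorem M_disj {t t' : Fin r → ZMod p} (h : t ≠ t') : Disjoint (C.M t) (C.M t') := by
  rw [Set.disjoint_left]
  intro x hx hx'
  exact h (hx.2.2.symm.trans hx'.2.2)

theorem frontier_M {t : Fin r → ZMod p} {x : V} (hx : x ∈ frontier (C.M t)) :
    x ∈ D.K ∨ 2 * D.ε ≤ dist (D.F x) D.y := by
  have hcl := frontier_subset_closure hx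
  have hxK := C.closure_M t hcl
  by_cases hd : 2 * D.ε ≤ dist (D.F x) D.y
  · exact Or.inr hd
  · left
    push Not at hd
    refine ⟨hxK.1, C.hOf x hxK.1 ?_, hd.le⟩
    rw [C.hO.frontier_eq]
    refine ⟨closure_mono (fun z hz => hz.1) hcl, fun hxO => ?_⟩
    have h1 := (mem_closure_iff_frequently.1 hcl).and_eventually (C.hL x hxO)
    obtain ⟨z, hz, hzL⟩ := h1.exists
    rw [(C.isOpen_M t).frontier_eq] at hx
    exact hx.2 ⟨hxO, hd, hzL.symm.trans hz.2.2⟩

theorem L_g (a : A) {x : V} (hx : x ∈ C.O) :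
    C.L (D.g a x) = fun i => C.L x i + D.χ i a := funext fun i => C.hLg a x hx i

theorem image_M (a : A) (t : Fin r → ZMod p) :
    D.g a '' C.M t = C.M (fun i => t i + D.χ i a) := by
  have hstep : ∀ (b : A) (s : Fin r → ZMod p) (x : V), x ∈ C.M s →
      D.g b x ∈ C.M (fun i => s i + D.χ i b) := by
    intro b s x hx
    refine ⟨C.hOg b x hx.1, by rw [D.hFg b x (C.hOU hx.1)]; exact hx.2.1, ?_⟩
    rw [C.L_g b hx.1, hx.2.2]
  ext x
  constructor
  · rintro ⟨z, hz, rfl⟩
    exact hstep a t z hz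
  · intro hx
    refine ⟨D.g (-a) x, ?_, D.inv' _ (C.M_sub _ hx)⟩
    have h1 := hstep (-a) _ x hx
    have h2 : (fun i => t i + D.χ i a + D.χ i (-a)) = t := by
      funext i
      rw [map_neg, add_neg_cancel_right]
    rwa [h2] at h1

theorem χ_smul (b : A) (i : Fin r) : D.χ i (p • b) = 0 := by
  rw [map_nsmul, nsmul_eq_mul, ZMod.natCast_self, zero_mul]

theorem image_M_smul (b : A) (t : Fin r → ZMod p) : D.g (p • b) '' C.M t = C.M t := by
  rw [C.image_M]
  congr 1
  funext i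
  rw [χ_smul, add_zero]

theorem closure_g (b : A) {x : V} (hx : x ∈ closure (C.M 0)) :
    D.g (p • b) x ∈ closure (C.M 0) := by
  have h1 := image_closure_subset_closure_image (s := C.M 0) (D.hg (p • b)) ⟨x, hx, rfl⟩
  rwa [C.image_M_smul] at h1

/-- The degree data of the base piece of a chamber. -/
def cdat (hsep : ∀ S, Cl (fun b => D.g (p • b)) S → S ⊆ D.K → ∃ f : V → ℝ, ContinuousOn f D.K ∧
      (∀ x ∈ D.K, 0 ≤ f x) ∧ (∀ x ∈ D.K, f x = 0 ↔ x ∈ S) ∧
      ∀ b, ∀ x ∈ D.K, f (D.g (p • b) x) = f x)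
    (hconv : ∀ (b : A) (η : ℝ), 0 < η → ∀ᶠ M : ℕ in atTop, ∀ x ∈ D.K,
      dist (D.g (p • (p ^ M • b)) x) x < η) : CDat μ A p where
  X := C.M 0
  W := D.K
  g := fun b => D.g (p • b)
  F := D.F
  y := D.y
  ε := D.ε
  hX := C.isOpen_M 0
  hXb := C.M_bdd 0
  hW := D.isCompact_K
  hW0 := D.K_null
  hg := fun b => D.hg _
  hgW := fun b x hx => D.gK _ hx
  g0 := fun x hx => by rw [smul_zero]; exact D.hg0 x hx.1
  gadd := fun a b x hx => by rw [smul_add]; exact D.hgadd _ _ x hx.1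
  hF := D.hF
  hFW := fun b x hx => D.hFg _ x hx.1
  hFX := fun b x hx => D.hFg _ x (C.closure_M 0 hx).1
  hgX := fun b x hx => C.closure_g b hx
  hε := D.hε
  hfr := fun x hx => C.frontier_M hx
  htr := fun b B κ hB hκ hne => by
    apply D.transport (p • b) (C.isOpen_M 0) (C.M_sub 0) hB _ hne
    rw [C.image_M_smul]
    exact hκ
  sep := hsep
  conv := hconv

/-- The sum of the degrees over the pieces of a chamber. -/
theorem sum_dvd (hr : 0 < r)
    (hsep : ∀ S, Cl (fun b => D.g (p • b)) S → S ⊆ D.K → ∃ f : V → ℝ, ContinuousOn f D.K ∧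
      (∀ x ∈ D.K, 0 ≤ f x) ∧ (∀ x ∈ D.K, f x = 0 ↔ x ∈ S) ∧
      ∀ b, ∀ x ∈ D.K, f (D.g (p • b) x) = f x)
    (hconv : ∀ (b : A) (η : ℝ), 0 < η → ∀ᶠ M : ℕ in atTop, ∀ x ∈ D.K,
      dist (D.g (p • (p ^ M • b)) x) x < η)
    {B : V → V} (hB : Continuous B) (hBF : ∀ x, dist (B x) (D.F x) ≤ D.ε / 2)
    (hBy : ∀ x ∈ D.K, B x ≠ D.y) (hBr : ∀ x ∈ D.K, B (D.r x) = B x)
    {k : (Fin r → ZMod p) → ℝ} (hk : ∀ t, HasDeg μ (C.M t) B D.y (k t)) :
    ∃ z : ℤ, ∑ t, k t = p * z := by
  classical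
  set T := C.cdat hsep hconv with hT
  have hε := D.hε
  let ψ : A → ℤ := fun a => T.deg (fun x => B (D.g a x))
  -- the translates
  have hcl : ∀ a, ∀ x ∈ closure (C.M 0), dist (B (D.g a x)) (D.F x) ≤ D.ε / 2 := by
    intro a x hx
    rw [← D.hFg a x (C.closure_M 0 hx).1]
    exact hBF _
  have hψ : ∀ a, HasDeg μ (C.M 0) (fun x => B (D.g a x)) D.y (ψ a) := fun a =>
    T.hasDeg_deg (hB.comp (D.hg a)) (fun x hx => (hcl a x hx).trans (by
      change D.ε / 2 ≤ D.ε
      linarith)) (fun x hx => hBy _ (D.gK a hx))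
  have hkψ : ∀ t : Fin r → ZMod p, k t = ψ (∑ i, (t i).val • D.v i) := by
    intro t
    set a : A := ∑ i, (t i).val • D.v i with ha
    have hχ : ∀ i, D.χ i a = t i := by
      intro i
      rw [ha, map_sum]
      have h1 : ∀ j ∈ Finset.univ, D.χ i ((t j).val • D.v j) = if i = j then t i else 0 := by
        intro j _
        rw [map_nsmul, D.hχ]
        split_ifs with h
        · subst h
          rw [nsmul_eq_mul, mul_one, ZMod.natCast_val, ZMod.cast_id]
        · rw [smul_zero]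
      rw [Finset.sum_congr rfl h1, Finset.sum_ite_eq, if_pos (Finset.mem_univ i)]
    have h1 : D.g a '' C.M 0 = C.M t := by
      rw [C.image_M]
      congr 1
      funext i
      rw [hχ, Pi.zero_apply, zero_add]
    have h2 : HasDeg μ (C.M 0) (fun x => B (D.g a x)) D.y (k t) := by
      apply D.transport a (C.isOpen_M 0) (C.M_sub 0) hB (by rw [h1]; exact hk t)
      intro x hx heq
      rcases C.frontier_M hx with h | h
      · exact hBy _ (D.gK a h) heq
      · have h3 := hcl a x (frontier_subset_closure hx)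
        rw [heq, dist_comm] at h3
        linarith
    exact HasDeg.unique μ (C.isOpen_M 0) (C.M_bdd 0) (hB.comp (D.hg a)).continuousOn h2 (hψ a)
  -- the iterated differences vanish
  have hDl : ∀ a, Dl D.v (List.finRange r) ψ a = 0 := by
    intro a
    refine Thy.alt (g := T.g) (p := p) D.v (fun i a => D.χ i a) (fun i => {x | i ∈ D.I x})
      (fun i x => D.lab i x) (fun i => -(D.v i)) (List.finRange r) ?_ (List.nodup_finRange r)
      T.thy univ (fun a x => B (D.g a x)) ?_ ?_ ?_ ?_ ?_ ?_ ?_ (mem_univ a)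
    · intro h
      have h1 : (List.finRange r).length = 0 := by rw [h]; rfl
      rw [List.length_finRange] at h1
      omega
    · intro i _ e
      refine ⟨?_, ?_⟩
      · rw [← isOpen_compl_iff, isOpen_iff_mem_nhds]
        intro x hx
        by_cases hxK : x ∈ D.K
        · by_cases hi : i ∈ D.I x
          · have hl : D.lab i x ≠ e := fun h => hx ⟨hxK, hi, h⟩
            filter_upwards [D.eventually_lab hxK] with x' hx' h
            exact hl ((hx' i hi).symm.trans h.2.2)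
          · filter_upwards [D.eventually_I hxK.1] with x' hx' h
            exact hi (hx' h.2.1)
        · filter_upwards [D.isCompact_K.isClosed.isOpen_compl.mem_nhds hxK] with x' hx' h
          exact hx' h.1
      · rintro b x ⟨hxK, hi, hl⟩
        refine ⟨D.gK _ hxK, ?_, ?_⟩
        · change i ∈ D.I (D.g (p • b) x)
          rw [D.I_g _ hxK.1]
          exact hi
        · change D.lab i (D.g (p • b) x) = e
          rw [D.lab_g _ hxK hi, χ_smul, add_zero]
          exact hl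
    · intro x hx
      have h5 : (D.I x).Nonempty := by
        have : Nonempty (Fin r) := ⟨⟨0, hr⟩⟩
        obtain ⟨i, hi⟩ := Finite.exists_max (fun i => D.mu i x)
        exact ⟨i, D.mem_I.2 hi⟩
      obtain ⟨i, hi⟩ := h5
      exact ⟨i, List.mem_finRange i, hi⟩
    · intro a _
      refine ⟨(hB.comp (D.hg a)).continuousOn, fun x hx => ⟨?_, hBy _ (D.gK a hx)⟩⟩
      have hxK : x ∈ D.K := hx
      change dist (B (D.g a x)) (D.F x) < D.ε
      rw [← D.hFg a x hxK.1]
      have := hBF (D.g a x)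
      linarith
    · intro i _ a _
      exact mem_univ _
    · intro i _ j _ hij a
      rw [map_add, D.hχ, if_neg hij, add_zero]
    · intro i _ a _ x hx hi hc
      have hxK : x ∈ D.K := hx
      change B (D.g (a + D.v i) x) = B (D.g a x)
      rw [add_comm, D.hgadd _ _ x hxK.1]
      apply D.rel_one hBr (D.gK a hxK)
      · rw [D.I_g _ hxK.1]; exact hi
      · rw [D.lab_g a hxK hi]
        exact hc
    · intro i _ a _ x hx hi hc
      have hxK : x ∈ D.K := hx
      change B (D.g (a + D.v i) (D.g (p • (-(D.v i))) x)) = B (D.g a x)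
      have h1 := D.rel_two hBr (D.gK a hxK) (i := i) (by rw [D.I_g _ hxK.1]; exact hi)
        (by rw [D.lab_g a hxK hi]; exact hc)
      rw [← h1]
      congr 1
      rw [← D.hgadd _ _ x hxK.1, ← D.hgadd _ _ x hxK.1, ← D.hgadd _ _ x hxK.1]
      congr 1
      rw [smul_neg]
      abel
  obtain ⟨z, hz⟩ := comb (p := p) D.v ψ hDl
  refine ⟨z, ?_⟩
  have h1 : ∑ t, k t = ((∑ t : Fin r → ZMod p, ψ (∑ i, (t i).val • D.v i) : ℤ) : ℝ) := by
    rw [Int.cast_sum]
    exact Finset.sum_congr rfl fun t _ => hkψ t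
  rw [h1, hz]
  push_cast
  rfl

end Chm

/-- **The degree is divisible by `p`.** -/
theorem deg_dvd (hr : 0 < r) {κ : Type} [Fintype κ] [DecidableEq κ] (C : κ → D.Chm)
    (hdisj : ∀ i j, i ≠ j → Disjoint (C i).O (C j).O)
    (hcov : ∀ x ∈ D.U, dist (D.F x) D.y ≤ 2 * D.ε → x ∉ D.Wl → ∃ j, x ∈ (C j).O)
    (hsep : ∀ S, Cl (fun b => D.g (p • b)) S → S ⊆ D.K → ∃ f : V → ℝ, ContinuousOn f D.K ∧
      (∀ x ∈ D.K, 0 ≤ f x) ∧ (∀ x ∈ D.K, f x = 0 ↔ x ∈ S) ∧
      ∀ b, ∀ x ∈ D.K, f (D.g (p • b) x) = f x)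
    (hconv : ∀ (b : A) (η : ℝ), 0 < η → ∀ᶠ M : ℕ in atTop, ∀ x ∈ D.K,
      dist (D.g (p • (p ^ M • b)) x) x < η)
    {d : ℝ} (hd : HasDeg μ D.U D.F D.y d) : ∃ z : ℤ, d = p * z := by
  classical
  have : ProperSpace V := FiniteDimensional.proper ℝ V
  have hε := D.hε
  obtain ⟨B, hB, hBF, hBC⟩ := D.exists_good (ε' := D.ε / 2) (by linarith)
  have hBF' : ∀ x, dist (B x) (D.F x) ≤ D.ε := fun x => (hBF x).trans (by linarith)
  have hfrU : ∀ x ∈ frontier D.U, 2 * D.ε ≤ dist (D.F x) D.y := by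
    intro x hx
    by_contra hn
    push Not at hn
    have h2 := D.hK x (frontier_subset_closure hx) hn.le
    rw [D.hU.frontier_eq] at hx
    exact hx.2 h2
  have hdB : HasDeg μ D.U B D.y d := by
    apply HasDeg.homotopy μ D.hU D.hUb D.hF.continuousOn hB.continuousOn hd
    intro x hx t ht
    exact D.hseg (hfrU x hx) (by rw [dist_self]; exact D.hε.le) (hBF' x) ht
  have hne : ∀ (j : κ) (t : Fin r → ZMod p), ∀ x ∈ frontier ((C j).M t), B x ≠ D.y := by
    intro j t x hx heq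
    rcases (C j).frontier_M hx with h | h
    · exact (hBC x h).1 heq
    · have h2 := hBF' x
      rw [heq, dist_comm] at h2
      linarith
  have hex : ∀ q : κ × (Fin r → ZMod p), ∃ k : ℝ, HasDeg μ ((C q.1).M q.2) B D.y k := fun q =>
    HasDeg.exists μ ((C q.1).isOpen_M _) ((C q.1).M_bdd _) hB.continuousOn (hne _ _)
  choose k hk using hex
  have hsum : HasDeg μ D.U B D.y (∑ q : κ × (Fin r → ZMod p), k q) := by
    apply HasDeg.sum μ Finset.univ D.hU D.hUb (W := fun q : κ × (Fin r → ZMod p) => (C q.1).M q.2)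
      (fun q _ => (C q.1).isOpen_M _) (fun q _ => (C q.1).M_sub _) _ hB.continuousOn _
      (fun q _ => hk q)
    · rintro ⟨i, c⟩ _ ⟨j, e⟩ _ hqe
      by_cases hij : i = j
      · subst hij
        exact (C i).M_disj fun (h : c = e) => hqe (by rw [h])
      · exact (hdisj i j hij).mono (fun x hx => hx.1) (fun x hx => hx.1)
    · intro x hx heq
      have h2 : dist (D.F x) D.y ≤ D.ε := by
        rw [← heq, dist_comm]
        exact hBF' x
      have hxU : x ∈ D.U := D.hK x hx (by linarith)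
      have hxW : x ∉ D.Wl := fun h => (hBC x ⟨hxU, h, by linarith⟩).1 heq
      obtain ⟨j, hj⟩ := hcov x hxU (by linarith) hxW
      exact ⟨(j, (C j).L x), Finset.mem_univ _, hj, by linarith, rfl⟩
  have h1 : d = ∑ q : κ × (Fin r → ZMod p), k q :=
    HasDeg.unique μ D.hU D.hUb hB.continuousOn hdB hsum
  have h2 : ∀ j, ∃ z : ℤ, ∑ t, k (j, t) = p * z := fun j =>
    (C j).sum_dvd hr hsep hconv hB hBF (fun x hx => (hBC x hx).1) (fun x hx => (hBC x hx).2)
      (fun t => hk (j, t))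
  choose z hz using h2
  refine ⟨∑ j, z j, ?_⟩
  rw [h1, Fintype.sum_prod_type]
  push_cast
  rw [Finset.mul_sum]
  exact Finset.sum_congr rfl fun j _ => hz j

end WDat

end Pool.Agent.Helper83.RK2
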