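import Pool.Agent.Helper83.RK.Perturb

/-!
# Degree functionals on families of maps which are defined on the walls

A theory consists of a compact set `W`, on which an abelian group `H` acts, of sets of admissible
maps on the closed invariant subsets of `W`, and of an integer valued functional on the admissible
maps on `W`, which is invariant, local and locally constant.
-/

set_option autoImplicit false
set_option linter.unusedSectionVars false
set_option linter.unusedVariables false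

open Set MeasureTheory Metric Filter Topology
open scoped NNReal ENNReal

namespace Pool.Agent.Helper83.RK2

open Pool.Agent.Helper3.HS

/-- Closed invariant sets. -/
def Cl {Z H : Type} [TopologicalSpace Z] (g : H → Z → Z) (C : Set Z) : Prop :=
  IsClosed C ∧ ∀ h, ∀ x ∈ C, g h x ∈ C

/-- Theories. -/
structure Thy {Z H : Type} [TopologicalSpace Z] [AddCommGroup H] (g : H → Z → Z) (p : ℕ) where
  E : Type
  [met : PseudoMetricSpace E]
  W : Set Z
  Adm : Set Z → (Z → E) → Prop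
  δ : (Z → E) → ℤ
  hW : Cl g W
  g0 : ∀ x ∈ W, g 0 x = x
  gadd : ∀ a b, ∀ x ∈ W, g (a + b) x = g a (g b x)
  /-- separation -/
  sep : ∀ C, Cl g C → C ⊆ W → ∃ f : Z → ℝ, ContinuousOn f W ∧ (∀ x ∈ W, 0 ≤ f x) ∧
    (∀ x ∈ W, f x = 0 ↔ x ∈ C) ∧ ∀ h, ∀ x ∈ W, f (g h x) = f x
  congr : ∀ {C P P'}, Cl g C → Adm C P → EqOn P P' C → Adm C P'
  mono : ∀ {C C' P}, Adm C P → C' ⊆ C → Adm C' P
  union : ∀ {C₁ C₂ P}, Cl g C₁ → Cl g C₂ → Adm C₁ P → Adm C₂ P → Adm (C₁ ∪ C₂) P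
  act : ∀ {C P} (h : H), Cl g C → C ⊆ W → Adm C P → Adm C (fun x => P (g h x))
  ext : ∀ {C P}, Cl g C → C ⊆ W → Adm C P → ∃ P', Adm W P' ∧ EqOn P' P C
  /-- the functional only depends on the values on `W` -/
  d0 : ∀ {P P'}, Adm W P → EqOn P P' W → δ P = δ P'
  /-- invariance -/
  d1 : ∀ {P} (h : H), Adm W P → δ (fun x => P (g h x)) = δ P
  /-- locality: `P`, `P'` differ on `C₁` and `P`, `Q` differ on `C₂` -/
  d2 : ∀ {C₁ C₂ P P' Q Q'}, Cl g C₁ → Cl g C₂ → C₁ ∪ C₂ = W → Adm W P → Adm W P' → Adm W Q →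
    Adm W Q' → EqOn P P' C₂ → EqOn Q Q' C₂ → EqOn P Q C₁ → EqOn P' Q' C₁ →
    δ P' - δ P = δ Q' - δ Q
  /-- local constancy, relative version -/
  d3 : ∀ {P}, Adm W P → ∀ η : ℝ, 0 < η → ∃ η' : ℝ, 0 < η' ∧ ∀ {C Q}, Cl g C → C ⊆ W →
    Adm C Q → (∀ x ∈ C, dist (Q x) (P x) < η') →
    ∃ P', Adm W P' ∧ EqOn P' Q C ∧ (∀ x ∈ W, dist (P' x) (P x) < η) ∧ δ P' = δ P
  /-- the powers of an element converge to the identity -/
  d4 : ∀ {C P} (h : H), Cl g C → C ⊆ W → Adm C P → ∀ η : ℝ, 0 < η →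
    ∀ᶠ M : ℕ in atTop, ∀ x ∈ C, dist (P (g (p ^ M • h) x)) (P x) < η

attribute [instance] Thy.met

/-- Iterated differences. -/
def Dl {A ι : Type} [Add A] (v : ι → A) : List ι → (A → ℤ) → A → ℤ
  | [], ψ => ψ
  | i :: l, ψ => Dl v l (fun b => ψ b - ψ (b + v i))

variable {V : Type} [NormedAddCommGroup V] [NormedSpace ℝ V] [FiniteDimensional ℝ V]
  [MeasurableSpace V] [BorelSpace V]

/-- A bounded open set `X` whose frontier, near the fibre of `F` over `y`, lies in a null set `W`.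
An abelian group `H` acts on `W` and on the closure of `X`. -/
structure CDat (μ : Measure V) [μ.IsAddHaarMeasure] (H : Type) [AddCommGroup H] (p : ℕ) where
  X : Set V
  W : Set V
  g : H → V → V
  F : V → V
  y : V
  ε : ℝ
  hX : IsOpen X
  hXb : Bornology.IsBounded X
  hW : IsCompact W
  hW0 : μ W = 0
  hg : ∀ h, Continuous (g h)
  hgW : ∀ h, ∀ x ∈ W, g h x ∈ W
  g0 : ∀ x ∈ W, g 0 x = x
  gadd : ∀ a b, ∀ x ∈ W, g (a + b) x = g a (g b x)
  hF : Continuous F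
  hFW : ∀ h, ∀ x ∈ W, F (g h x) = F x
  hFX : ∀ h, ∀ x ∈ closure X, F (g h x) = F x
  hgX : ∀ h, ∀ x ∈ closure X, g h x ∈ closure X
  hε : 0 < ε
  hfr : ∀ x ∈ frontier X, x ∈ W ∨ 2 * ε ≤ dist (F x) y
  htr : ∀ (h : H) (B : V → V) (κ : ℝ), Continuous B → HasDeg μ X B y κ →
    (∀ x ∈ frontier X, B (g h x) ≠ y) → HasDeg μ X (fun x => B (g h x)) y κ
  sep : ∀ C, Cl g C → C ⊆ W → ∃ f : V → ℝ, ContinuousOn f W ∧ (∀ x ∈ W, 0 ≤ f x) ∧
    (∀ x ∈ W, f x = 0 ↔ x ∈ C) ∧ ∀ h, ∀ x ∈ W, f (g h x) = f x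
  conv : ∀ (h : H) (η : ℝ), 0 < η → ∀ᶠ M : ℕ in atTop, ∀ x ∈ W, dist (g (p ^ M • h) x) x < η

end Pool.Agent.Helper83.RK2
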