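import Pool.Agent.Helper83.RK2.ThyDef

/-!
# Perturbations on walls which are periodic along independent directions
-/

set_option autoImplicit false
set_option linter.unusedSectionVars false
set_option linter.unusedVariables false

open Set MeasureTheory Metric Filter Topology
open scoped NNReal ENNReal

namespace Pool.Agent.Helper83.RK2

open Pool.Agent.Helper3.HS Pool.Agent.Helper83.RK

variable {V : Type*} [NormedAddCommGroup V] [NormedSpace ℝ V] [FiniteDimensional ℝ V]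
  [MeasurableSpace V] [BorelSpace V]

/-- An action of an abelian group `A` on a bounded open set `U`, an invariant map `F`, and labels
modulo `p` of the points of the walls `Wl` near the fibre over `y`: at the points where `mu i` is the
largest of the functions `mu j`, the label `lab i` is locally constant and changes by the character
`χ i`. The element `v i` changes only the label `lab i`. -/
structure WDat (μ : Measure V) [μ.IsAddHaarMeasure] (A : Type*) [AddCommGroup A] (p : ℕ)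
    (ι : Type*) [Fintype ι] [DecidableEq ι] where
  U : Set V
  g : A → V → V
  F : V → V
  y : V
  ε : ℝ
  χ : ι → A →+ ZMod p
  v : ι → A
  mu : ι → V → ℝ
  lab : ι → V → ZMod p
  Wl : Set V
  hU : IsOpen U
  hUb : Bornology.IsBounded U
  hg : ∀ a, Continuous (g a)
  hgU : ∀ a, ∀ x ∈ U, g a x ∈ U
  hg0 : ∀ x ∈ U, g 0 x = x
  hgadd : ∀ a b, ∀ x ∈ U, g (a + b) x = g a (g b x)
  hpos : ∀ a, ∀ X ⊆ U, IsOpen X → ∀ x ∈ X, HasDeg μ X (g a) (g a x) 1
  hF : Continuous F
  hFg : ∀ a, ∀ x ∈ U, F (g a x) = F x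
  hε : 0 < ε
  hK : ∀ x ∈ closure U, dist (F x) y ≤ 2 * ε → x ∈ U
  hχ : ∀ i j, χ i (v j) = if i = j then 1 else 0
  hmu : ∀ i, ContinuousOn (mu i) U
  hmug : ∀ i a, ∀ x ∈ U, mu i (g a x) = mu i x
  hWl : IsOpen (U \ Wl)
  hWlg : ∀ a, ∀ x ∈ U, x ∈ Wl → g a x ∈ Wl
  hWl0 : μ (U ∩ Wl) = 0
  hlab : ∀ i, ∀ x ∈ U, x ∈ Wl → dist (F x) y ≤ 2 * ε → (∀ j, mu j x ≤ mu i x) →
    ∀ᶠ x' in 𝓝 x, lab i x' = lab i x
  hlabg : ∀ i a, ∀ x ∈ U, x ∈ Wl → dist (F x) y ≤ 2 * ε → (∀ j, mu j x ≤ mu i x) →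
    lab i (g a x) = lab i x + χ i a

namespace WDat

variable {μ : Measure V} [μ.IsAddHaarMeasure] {A : Type*} [AddCommGroup A] {p : ℕ} [NeZero p]
  {ι : Type*} [Fintype ι] [DecidableEq ι] (D : WDat μ A p ι)

/-- The neighbourhood of the fibre. -/
def K₀ : Set V := {x | x ∈ D.U ∧ dist (D.F x) D.y ≤ 2 * D.ε}

theorem isCompact_K₀ : IsCompact D.K₀ := by
  have : ProperSpace V := FiniteDimensional.proper ℝ V
  have h1 : D.K₀ = closure D.U ∩ {x | dist (D.F x) D.y ≤ 2 * D.ε} := by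
    ext x
    exact ⟨fun h => ⟨subset_closure h.1, h.2⟩, fun h => ⟨D.hK x h.1 h.2, h.2⟩⟩
  rw [h1]
  apply D.hUb.isCompact_closure.inter_right
  exact isClosed_le (D.hF.dist continuous_const) continuous_const

/-- The walls near the fibre. -/
def K : Set V := {x | x ∈ D.U ∧ x ∈ D.Wl ∧ dist (D.F x) D.y ≤ 2 * D.ε}

theorem isCompact_K : IsCompact D.K := by
  have h1 : D.K = D.K₀ \ (D.U \ D.Wl) := by
    ext x
    constructor
    · rintro ⟨h1, h2, h3⟩
      exact ⟨⟨h1, h3⟩, fun h => h.2 h2⟩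
    · rintro ⟨⟨h1, h3⟩, h2⟩
      refine ⟨h1, ?_, h3⟩
      by_contra h
      exact h2 ⟨h1, h⟩
  rw [h1]
  exact D.isCompact_K₀.diff D.hWl

theorem K_null : μ D.K = 0 :=
  measure_mono_null (show D.K ⊆ D.U ∩ D.Wl from fun x hx => ⟨hx.1, hx.2.1⟩) D.hWl0

open Classical in
/-- The indices with the largest weight. -/
noncomputable def I (x : V) : Finset ι := Finset.univ.filter fun i => ∀ j, D.mu j x ≤ D.mu i x

theorem mem_I {x : V} {i : ι} : i ∈ D.I x ↔ ∀ j, D.mu j x ≤ D.mu i x := by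
  classical
  simp [I]

/-- The coordinate of a point with respect to a set of directions. -/
noncomputable def s (J : Finset ι) (x : V) : A := ∑ i ∈ J, (D.lab i x).val • D.v i

/-- The projection to label zero in a set of directions. -/
noncomputable def pr (J : Finset ι) (x : V) : V := D.g (-(D.s J x)) x

/-- The projection to the base points. -/
noncomputable def r (x : V) : V := D.pr (D.I x) x

theorem gK (a : A) {x : V} (hx : x ∈ D.K) : D.g a x ∈ D.K :=
  ⟨D.hgU a x hx.1, D.hWlg a x hx.1 hx.2.1, by rw [D.hFg a x hx.1]; exact hx.2.2⟩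

theorem I_g (a : A) {x : V} (hx : x ∈ D.U) : D.I (D.g a x) = D.I x := by
  ext i
  rw [mem_I, mem_I]
  constructor
  · intro h j
    have := h j
    rwa [D.hmug j a x hx, D.hmug i a x hx] at this
  · intro h j
    rw [D.hmug j a x hx, D.hmug i a x hx]
    exact h j

theorem lab_g (a : A) {x : V} (hx : x ∈ D.K) {i : ι} (hi : i ∈ D.I x) :
    D.lab i (D.g a x) = D.lab i x + D.χ i a :=
  D.hlabg i a x hx.1 hx.2.1 hx.2.2 (D.mem_I.1 hi)

theorem χ_s (J : Finset ι) (x : V) (i : ι) :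
    D.χ i (D.s J x) = if i ∈ J then D.lab i x else 0 := by
  unfold s
  rw [map_sum]
  have h1 : ∀ j ∈ J, D.χ i ((D.lab j x).val • D.v j) = if i = j then D.lab i x else 0 := by
    intro j _
    rw [map_nsmul, D.hχ]
    split_ifs with h
    · subst h
      rw [nsmul_eq_mul, mul_one, ZMod.natCast_val, ZMod.cast_id]
    · rw [smul_zero]
  rw [Finset.sum_congr rfl h1, Finset.sum_ite_eq]

theorem pr_mem {J : Finset ι} {x : V} (hx : x ∈ D.K) : D.pr J x ∈ D.K := D.gK _ hx

theorem I_pr {J : Finset ι} {x : V} (hx : x ∈ D.K) : D.I (D.pr J x) = D.I x := D.I_g _ hx.1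

theorem lab_pr {J : Finset ι} {x : V} (hx : x ∈ D.K) {i : ι} (hi : i ∈ D.I x) :
    D.lab i (D.pr J x) = if i ∈ J then 0 else D.lab i x := by
  unfold pr
  rw [D.lab_g _ hx hi, map_neg, D.χ_s]
  split_ifs
  · exact add_neg_cancel _
  · rw [neg_zero, add_zero]

/-- The projection to the base points only depends on the projection in some directions. -/
theorem r_pr {J : Finset ι} {x : V} (hx : x ∈ D.K) (hJ : J ⊆ D.I x) : D.r (D.pr J x) = D.r x := by
  unfold r
  rw [D.I_pr hx]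
  have h1 : D.s (D.I x) (D.pr J x) + D.s J x = D.s (D.I x) x := by
    unfold s
    rw [← Finset.sum_sdiff hJ (f := fun i => (D.lab i x).val • D.v i),
      ← Finset.sum_sdiff hJ (f := fun i => (D.lab i (D.pr J x)).val • D.v i)]
    have h2 : ∑ i ∈ J, (D.lab i (D.pr J x)).val • D.v i = 0 := by
      apply Finset.sum_eq_zero
      intro i hi
      rw [D.lab_pr hx (hJ hi), if_pos hi, ZMod.val_zero, zero_smul]
    have h3 : ∑ i ∈ D.I x \ J, (D.lab i (D.pr J x)).val • D.v i =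
        ∑ i ∈ D.I x \ J, (D.lab i x).val • D.v i := by
      apply Finset.sum_congr rfl
      intro i hi
      obtain ⟨hi1, hi2⟩ := Finset.mem_sdiff.1 hi
      rw [D.lab_pr hx hi1, if_neg hi2]
    rw [h2, h3, add_zero]
  have h2 : D.pr (D.I x) (D.pr J x) = D.pr (D.I x) x := by
    change D.g (-(D.s (D.I x) (D.pr J x))) (D.g (-(D.s J x)) x) = D.g (-(D.s (D.I x) x)) x
    rw [← D.hgadd _ _ x hx.1, ← h1]
    congr 1
    abel
  exact h2

theorem r_mem {x : V} (hx : x ∈ D.K) : D.r x ∈ D.K := D.pr_mem hx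

theorem I_r {x : V} (hx : x ∈ D.K) : D.I (D.r x) = D.I x := D.I_pr hx

theorem lab_r {x : V} (hx : x ∈ D.K) {i : ι} (hi : i ∈ D.I x) : D.lab i (D.r x) = 0 := by
  unfold r
  rw [D.lab_pr hx hi, if_pos hi]

/-- The base point does not change along the direction `v i` from label zero. -/
theorem r_shift {x : V} (hx : x ∈ D.K) {i : ι} (hi : i ∈ D.I x) (h0 : D.lab i x = 0) {n : ℕ}
    (hn : n < p) : D.r (D.g (n • D.v i) x) = D.r x := by
  have hI : D.I (D.g (n • D.v i) x) = D.I x := D.I_g _ hx.1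
  unfold r
  rw [hI]
  have hχn : ∀ j, D.χ j (n • D.v i) = if j = i then (n : ZMod p) else 0 := by
    intro j
    rw [map_nsmul, D.hχ]
    split_ifs
    · rw [nsmul_eq_mul, mul_one]
    · rw [smul_zero]
  have h1 : D.s (D.I x) (D.g (n • D.v i) x) = D.s (D.I x) x + n • D.v i := by
    unfold s
    rw [← Finset.add_sum_erase _ _ hi, ← Finset.add_sum_erase (D.I x)
      (fun j => (D.lab j x).val • D.v j) hi]
    have h2 : (D.lab i (D.g (n • D.v i) x)).val = n := by
      rw [D.lab_g _ hx hi, h0, hχn, if_pos rfl, zero_add, ZMod.val_natCast, Nat.mod_eq_of_lt hn]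
    have h3 : ∀ j ∈ (D.I x).erase i, (D.lab j (D.g (n • D.v i) x)).val • D.v j =
        (D.lab j x).val • D.v j := by
      intro j hj
      obtain ⟨hji, hj⟩ := Finset.mem_erase.1 hj
      rw [D.lab_g _ hx hj, hχn, if_neg hji, add_zero]
    rw [h2, Finset.sum_congr rfl h3, h0, ZMod.val_zero, zero_smul, zero_add, add_comm]
  unfold pr
  rw [h1, ← D.hgadd _ _ x hx.1]
  congr 1
  abel

/-! ### Topology of the strata -/

/-- Near a point there are no new indices. -/
theorem eventually_I {x : V} (hx : x ∈ D.U) : ∀ᶠ x' in 𝓝 x, D.I x' ⊆ D.I x := by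
  have h1 : ∀ i ∉ D.I x, ∀ᶠ x' in 𝓝 x, i ∉ D.I x' := by
    intro i hi
    rw [mem_I] at hi
    push Not at hi
    obtain ⟨j, hj⟩ := hi
    have hc := ((D.hmu i).continuousAt (D.hU.mem_nhds hx)).eventually_lt
      ((D.hmu j).continuousAt (D.hU.mem_nhds hx)) hj
    filter_upwards [hc] with x' hx' h
    exact absurd (D.mem_I.1 h j) (not_le.2 hx')
  have h2 : ∀ᶠ x' in 𝓝 x, ∀ i ∈ (Finset.univ : Finset ι), i ∉ D.I x → i ∉ D.I x' := by
    rw [Filter.eventually_all_finset]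
    intro i _
    by_cases hi : i ∈ D.I x
    · exact Eventually.of_forall fun x' h => absurd hi h
    · filter_upwards [h1 i hi] with x' hx' _
      exact hx'
  filter_upwards [h2] with x' hx' i hi
  by_contra h
  exact hx' i (Finset.mem_univ i) h hi

/-- Near a point the labels of its indices are constant. -/
theorem eventually_lab {x : V} (hx : x ∈ D.K) :
    ∀ᶠ x' in 𝓝 x, ∀ i ∈ D.I x, D.lab i x' = D.lab i x := by
  rw [Filter.eventually_all_finset]
  intro i hi
  exact D.hlab i x hx.1 hx.2.1 hx.2.2 (D.mem_I.1 hi)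

theorem s_congr {J : Finset ι} {x x' : V} (h : ∀ i ∈ J, D.lab i x' = D.lab i x) :
    D.s J x' = D.s J x := by
  unfold s
  apply Finset.sum_congr rfl
  intro i hi
  rw [h i hi]

/-- The points of the stratum of codimension at least `k - 1`. -/
def C (k : ℕ) : Set V := {x | x ∈ D.K ∧ k ≤ (D.I x).card}

theorem isClosed_C (k : ℕ) : IsClosed (D.C k) := by
  rw [← isOpen_compl_iff, isOpen_iff_mem_nhds]
  intro x hx
  by_cases hxK : x ∈ D.K
  · have h1 : ¬ k ≤ (D.I x).card := fun h => hx ⟨hxK, h⟩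
    filter_upwards [D.eventually_I hxK.1] with x' hx' h
    exact h1 (h.2.trans (Finset.card_le_card hx'))
  · filter_upwards [D.isCompact_K.isClosed.isOpen_compl.mem_nhds hxK] with x' hx' h
    exact hx' h.1

/-- The base piece of the stratum. -/
def KJ (J : Finset ι) : Set V := {x | x ∈ D.K ∧ J ⊆ D.I x ∧ ∀ i ∈ J, D.lab i x = 0}

theorem isClosed_KJ (J : Finset ι) : IsClosed (D.KJ J) := by
  rw [← isOpen_compl_iff, isOpen_iff_mem_nhds]
  intro x hx
  by_cases hxK : x ∈ D.K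
  · by_cases hJ : J ⊆ D.I x
    · have h1 : ∃ i ∈ J, D.lab i x ≠ 0 := by
        by_contra h
        push Not at h
        exact hx ⟨hxK, hJ, h⟩
      obtain ⟨i, hi, hi0⟩ := h1
      filter_upwards [D.eventually_lab hxK] with x' hx' h
      exact hi0 ((hx' i (hJ hi)).symm.trans (h.2.2 i hi))
    · filter_upwards [D.eventually_I hxK.1] with x' hx' h
      exact hJ (h.2.1.trans hx')
  · filter_upwards [D.isCompact_K.isClosed.isOpen_compl.mem_nhds hxK] with x' hx' h
    exact hx' h.1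

theorem null_KJ (J : Finset ι) : μ (D.KJ J) = 0 := measure_mono_null (fun x hx => hx.1) D.K_null

theorem pr_mem_KJ {J : Finset ι} {x : V} (hx : x ∈ D.K) (hJ : J ⊆ D.I x) : D.pr J x ∈ D.KJ J :=
  ⟨D.pr_mem hx, by rw [D.I_pr hx]; exact hJ, fun i hi => by
    rw [D.lab_pr hx (hJ hi), if_pos hi]⟩

/-- The periodic perturbation on the strata. -/
def Good (k : ℕ) : Prop :=
  ∀ ε' : ℝ, 0 < ε' → ∃ B : V → V, Continuous B ∧ (∀ x, dist (B x) (D.F x) ≤ ε') ∧
    ∀ x ∈ D.C k, B x ≠ D.y ∧ B (D.r x) = B x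

theorem good_step {k : ℕ} (h : D.Good (k + 1)) : D.Good k := by
  classical
  intro ε' hε'
  obtain ⟨A₁, hA₁, hA₁F, hA₁C⟩ := h (ε' / 2) (by positivity)
  -- the perturbations on the base pieces
  have h1 : ∀ J : Finset ι, ∃ B : V → V, Continuous B ∧ (∀ x, dist (B x) (A₁ x) ≤ ε' / 2) ∧
      (J.card = k → (∀ x ∈ D.KJ J ∩ D.C (k + 1), B x = A₁ x) ∧ ∀ x ∈ D.KJ J, B x ≠ D.y) := by
    intro J
    by_cases hJ : J.card = k
    · obtain ⟨B, hB1, hB2, hB3, hB4⟩ := exists_perturb μ (K := D.KJ J)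
        (K₀ := D.KJ J ∩ D.C (k + 1)) (D.null_KJ J)
        (D.isCompact_K.of_isClosed_subset ((D.isClosed_KJ J).inter (D.isClosed_C _))
          (fun x hx => hx.1.1)) hA₁ (y := D.y) (fun x hx => (hA₁C x hx.2).1)
        (ε := ε' / 2) (by positivity)
      exact ⟨B, hB1, hB2, fun _ => ⟨hB3, hB4⟩⟩
    · exact ⟨A₁, hA₁, fun x => by rw [dist_self]; positivity, fun h => absurd h hJ⟩
  choose B hB1 hB2 hB3 using h1
  -- the glued map
  let hh : V → V := fun x => if k + 1 ≤ (D.I x).card then A₁ x else B (D.I x) (D.r x)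
  have key : ∀ x ∈ D.K, ∀ J ⊆ D.I x, J.card = k → hh x = B J (D.pr J x) := by
    intro x hx J hJ hJk
    by_cases hc : k + 1 ≤ (D.I x).card
    · simp only [hh]
      rw [if_pos hc]
      have h2 : D.pr J x ∈ D.C (k + 1) := ⟨D.pr_mem hx, by rw [D.I_pr hx]; exact hc⟩
      rw [(hB3 J hJk).1 _ ⟨D.pr_mem_KJ hx hJ, h2⟩, ← (hA₁C _ h2).2, D.r_pr hx hJ,
        (hA₁C x ⟨hx, hc⟩).2]
    · simp only [hh]
      rw [if_neg hc]
      have h2 : J = D.I x := Finset.eq_of_subset_of_card_le hJ (by omega)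
      rw [h2]
      rfl
  have hcont : ContinuousOn hh (D.C k) := by
    intro x₀ hx₀
    rw [ContinuousWithinAt, Metric.tendsto_nhds]
    intro e he
    have h2 : ∀ᶠ x in 𝓝 x₀, ∀ J ∈ (D.I x₀).powerset,
        dist (B J (D.g (-(D.s J x₀)) x)) (B J (D.g (-(D.s J x₀)) x₀)) < e := by
      rw [Filter.eventually_all_finset]
      intro J _
      have h3 : Continuous fun x => B J (D.g (-(D.s J x₀)) x) := (hB1 J).comp (D.hg _)
      exact Metric.tendsto_nhds.1 h3.continuousAt e he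
    filter_upwards [nhdsWithin_le_nhds h2, nhdsWithin_le_nhds (D.eventually_I hx₀.1.1),
      nhdsWithin_le_nhds (D.eventually_lab hx₀.1), self_mem_nhdsWithin] with x h3 h4 h5 h6
    obtain ⟨J, hJ, hJk⟩ := Finset.exists_subset_card_eq h6.2
    have hJ₀ : J ⊆ D.I x₀ := hJ.trans h4
    rw [key x h6.1 J hJ hJk, key x₀ hx₀.1 J hJ₀ hJk]
    unfold pr
    rw [D.s_congr (J := J) fun i hi => h5 i (hJ₀ hi)]
    exact h3 J (Finset.mem_powerset.2 hJ₀)
  have hdist : ∀ x ∈ D.C k, dist (hh x) (D.F x) ≤ ε' := by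
    intro x hx
    obtain ⟨J, hJ, hJk⟩ := Finset.exists_subset_card_eq hx.2
    rw [key x hx.1 J hJ hJk]
    have h2 : D.F (D.pr J x) = D.F x := D.hFg _ x hx.1.1
    rw [← h2]
    calc dist (B J (D.pr J x)) (D.F (D.pr J x)) ≤ dist (B J (D.pr J x)) (A₁ (D.pr J x)) +
          dist (A₁ (D.pr J x)) (D.F (D.pr J x)) := dist_triangle _ _ _
      _ ≤ ε' / 2 + ε' / 2 := add_le_add (hB2 J _) (hA₁F _)
      _ = ε' := by ring
  obtain ⟨A, hA1, hA2, hA3⟩ := exists_extend (D.isClosed_C k) D.hF hcont hε' hdist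
  refine ⟨A, hA1, hA2, fun x hx => ⟨?_, ?_⟩⟩
  · obtain ⟨J, hJ, hJk⟩ := Finset.exists_subset_card_eq hx.2
    rw [hA3 x hx, key x hx.1 J hJ hJk]
    exact (hB3 J hJk).2 _ (D.pr_mem_KJ hx.1 hJ)
  · have hrC : D.r x ∈ D.C k := ⟨D.r_mem hx.1, by rw [D.I_r hx.1]; exact hx.2⟩
    rw [hA3 x hx, hA3 _ hrC]
    by_cases hc : k + 1 ≤ (D.I x).card
    · have hc' : k + 1 ≤ (D.I (D.r x)).card := by rwa [D.I_r hx.1]
      simp only [hh]
      rw [if_pos hc, if_pos hc']
      exact (hA₁C x ⟨hx.1, hc⟩).2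
    · have hc' : ¬ k + 1 ≤ (D.I (D.r x)).card := by rwa [D.I_r hx.1]
      have hrr : D.r (D.r x) = D.r x := D.r_pr hx.1 (Finset.Subset.refl _)
      simp only [hh]
      rw [if_neg hc, if_neg hc', D.I_r hx.1, hrr]

theorem good_zero : D.Good 0 := by
  have h1 : ∀ n : ℕ, n ≤ Fintype.card ι + 1 → D.Good (Fintype.card ι + 1 - n) := by
    intro n
    induction n with
    | zero =>
      intro _ ε' hε'
      refine ⟨D.F, D.hF, fun x => by rw [dist_self]; exact hε'.le, fun x hx => ?_⟩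
      have h2 := Finset.card_le_univ (D.I x)
      have h3 := hx.2
      omega
    | succ n ih =>
      intro hn
      apply D.good_step
      have h2 : Fintype.card ι + 1 - (n + 1) + 1 = Fintype.card ι + 1 - n := by omega
      rw [h2]
      exact ih (by omega)
  have h2 := h1 (Fintype.card ι + 1) le_rfl
  rwa [Nat.sub_self] at h2

/-- The periodic perturbation on the walls. -/
theorem exists_good {ε' : ℝ} (hε' : 0 < ε') : ∃ B : V → V, Continuous B ∧
    (∀ x, dist (B x) (D.F x) ≤ ε') ∧ ∀ x ∈ D.K, B x ≠ D.y ∧ B (D.r x) = B x := by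
  obtain ⟨B, h1, h2, h3⟩ := D.good_zero ε' hε'
  exact ⟨B, h1, h2, fun x hx => h3 x ⟨hx, Nat.zero_le _⟩⟩

/-- Periodicity, away from the last label. -/
theorem rel_one {B : V → V} (hB : ∀ x ∈ D.K, B (D.r x) = B x) {x : V} (hx : x ∈ D.K) {i : ι}
    (hi : i ∈ D.I x) (h : D.lab i x ≠ -1) : B (D.g (D.v i) x) = B x := by
  set e : ZMod p := D.lab i x with he
  set x₀ : V := D.g (-(e.val • D.v i)) x with hx₀
  have hx₀K : x₀ ∈ D.K := D.gK _ hx
  have hi₀ : i ∈ D.I x₀ := by rw [hx₀, D.I_g _ hx.1]; exact hi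
  have hχ : D.χ i (e.val • D.v i) = e := by
    rw [map_nsmul, D.hχ, if_pos rfl, nsmul_eq_mul, mul_one, ZMod.natCast_val, ZMod.cast_id]
  have hl₀ : D.lab i x₀ = 0 := by
    rw [hx₀, D.lab_g _ hx hi, map_neg, hχ, ← he, add_neg_cancel]
  have hlt : e.val + 1 < p := by
    have h1 := ZMod.val_lt e
    by_contra hn
    have h2 : e.val + 1 = p := by omega
    apply h
    have h3 : ((e.val + 1 : ℕ) : ZMod p) = 0 := by rw [h2]; exact ZMod.natCast_self p
    rw [Nat.cast_add, ZMod.natCast_val, ZMod.cast_id, Nat.cast_one] at h3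
    exact eq_neg_of_add_eq_zero_left h3
  have h1 : D.g (e.val • D.v i) x₀ = x := by
    rw [hx₀, ← D.hgadd _ _ x hx.1, add_neg_cancel, D.hg0 x hx.1]
  have h2 : D.g ((e.val + 1) • D.v i) x₀ = D.g (D.v i) x := by
    rw [add_nsmul, one_nsmul, add_comm, D.hgadd _ _ x₀ hx₀K.1, h1]
  have h3 := D.r_shift hx₀K hi₀ hl₀ (ZMod.val_lt e)
  have h4 := D.r_shift hx₀K hi₀ hl₀ hlt
  rw [h1] at h3
  rw [h2] at h4
  rw [← hB _ (D.gK _ hx), h4, ← h3, hB x hx]

/-- Periodicity at the last label. -/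
theorem rel_two {B : V → V} (hB : ∀ x ∈ D.K, B (D.r x) = B x) {x : V} (hx : x ∈ D.K) {i : ι}
    (hi : i ∈ D.I x) (h : D.lab i x = -1) :
    B (D.g (D.v i) (D.g (-(p • D.v i)) x)) = B x := by
  set e : ZMod p := D.lab i x with he
  set x₀ : V := D.g (-(e.val • D.v i)) x with hx₀
  have hx₀K : x₀ ∈ D.K := D.gK _ hx
  have hi₀ : i ∈ D.I x₀ := by rw [hx₀, D.I_g _ hx.1]; exact hi
  have hχ : D.χ i (e.val • D.v i) = e := by
    rw [map_nsmul, D.hχ, if_pos rfl, nsmul_eq_mul, mul_one, ZMod.natCast_val, ZMod.cast_id]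
  have hl₀ : D.lab i x₀ = 0 := by
    rw [hx₀, D.lab_g _ hx hi, map_neg, hχ, ← he, add_neg_cancel]
  have hlt : e.val + 1 = p := by
    have h1 := ZMod.val_lt e
    have h3 : ((e.val + 1 : ℕ) : ZMod p) = 0 := by
      rw [Nat.cast_add, ZMod.natCast_val, ZMod.cast_id, Nat.cast_one, h, neg_add_cancel]
    rw [ZMod.natCast_eq_zero_iff] at h3
    have h4 := Nat.le_of_dvd (by omega) h3
    omega
  have h1 : D.g (e.val • D.v i) x₀ = x := by
    rw [hx₀, ← D.hgadd _ _ x hx.1, add_neg_cancel, D.hg0 x hx.1]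
  have h2 : D.g (D.v i) (D.g (-(p • D.v i)) x) = x₀ := by
    rw [← D.hgadd _ _ x hx.1, hx₀]
    congr 1
    have h5 : p • D.v i = e.val • D.v i + D.v i := by
      have h6 : p • D.v i = (e.val + 1) • D.v i := by
        congr 1
        exact hlt.symm
      rw [h6, add_nsmul, one_nsmul]
    rw [h5]
    abel
  have h3 := D.r_shift hx₀K hi₀ hl₀ (ZMod.val_lt e)
  rw [h1] at h3
  rw [h2, ← hB _ hx₀K, ← h3, hB x hx]

end WDat

end Pool.Agent.Helper83.RK2
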